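import Mathlib
import Pool.Agent.Q192.FT.Defs
import Pool.Agent.Q263.HS.Def
import Pool.Agent.Y504.CO.Stm2
import Pool.Agent.H637R2.TD.Defs

/-!
# Invariant tori of stable diffeomorphisms: definitions

`V n = ℝⁿ`, `DiffM n N r = Diff^r(N)` (`Pool/Agent/H718R2/G0.lean`), `Torus d`, `toTorus`,
`IsDiffeo`, `ChainRec` (`Pool/Agent/H728R2/OS/Defs.lean`), `IsFlagDiffeo`
(`Pool/Agent/H637R2/TD/Defs.lean`), `emb n d x = (x, 0)`, `cyc`: the union of the images
(`Pool/Agent/Q192/FT/Defs.lean`), `IsHyp`, `IsAction` (`Pool/Agent/Q263/HS/Def.lean`), `HypAt`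
(`Pool/Agent/Y504/CO/Stm2.lean`).
-/

set_option autoImplicit false

open scoped Manifold ContDiff Topology
open Set Filter Pool.Agent.H718R2.G Pool.Agent.H728R2.OS Pool.Agent.H637R2.TD Pool.Agent.Q192.FT
  Pool.Agent.H721R2

universe u

namespace Q263.IC

/-- The map `E : ℝ^n → N` induces an open embedding of class `C^r` of `𝕋^d × ℝ^(n-d)` in `N`. -/
structure Tube (n d : ℕ) {N : Type u} [TopologicalSpace N] [ChartedSpace (V n) N] (r : ℕ∞)
    (E : V n → N) : Prop where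
  chart : ∀ v, ∃ χ ∈ IsManifold.maximalAtlas (𝓡 n) r N, v ∈ χ.target ∧
    ∀ w ∈ χ.target, χ.symm w = E w
  inj : ∀ v w, E v = E w ↔ (∀ i : Fin n, (i : ℕ) < d → ∃ a : ℤ, w i = v i + a) ∧
    ∀ i : Fin n, d ≤ (i : ℕ) → w i = v i

/-- A cycle of `m` invariant tori `𝕋^d` of class `C^r` of the map `F : N → N`: the tube `E` has the
core `𝕋^d × {0}`, which is mapped to itself by `F^m`, by the homeomorphism `f` of `𝕋^d`, and is
disjoint from its images under `F, …, F^(m-1)`. -/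
structure TorusCycle (n : ℕ) {N : Type u} [TopologicalSpace N] [ChartedSpace (V n) N] (r : ℕ∞)
    (F : N → N) (d m : ℕ) (E : V n → N) (f : Torus d ≃ₜ Torus d) : Prop extends Tube n d r E where
  le : d ≤ n
  pos : 1 ≤ m
  dis : ∀ i, 0 < i → i < m → ∀ x y, F^[i] (E (emb n d x)) ≠ E (emb n d y)
  dyn : ∀ x y, toTorus y = f (toTorus x) → F^[m] (E (emb n d x)) = E (emb n d y)

/-- `f` is a `C^r` diffeomorphism of the circle (`d = 1`), or a `C^r` diffeomorphism of `𝕋^d` which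
preserves the standard flag of foliations and its orientations. -/
def Adm {d : ℕ} (r : ℕ∞) (f : Torus d ≃ₜ Torus d) : Prop :=
  IsDiffeo toTorus r f ∧ (d = 1 ∨ IsFlagDiffeo r f)

/-! ### statements of the parts -/

/-- SPLIT: the hyperbolic splitting of a linear automorphism.  `NoBdd (fun _ => A)`: the only
bounded sequence `v : ℤ → W` with `v (i+1) = A (v i)` is `0`. -/
def S_SPLIT : Prop :=
  ∀ (W : Type) [NormedAddCommGroup W] [NormedSpace ℝ W] [FiniteDimensional ℝ W] (A : W ≃L[ℝ] W),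
    Pool.Agent.Y504.CO.NoBdd (fun _ => (A : W →L[ℝ] W)) →
    ∃ (Ps Pu : Submodule ℝ W) (C a : ℝ), IsCompl Ps Pu ∧ 0 < a ∧ a < 1 ∧
      (∀ v, v ∈ Ps ↔ A v ∈ Ps) ∧ (∀ v, v ∈ Pu ↔ A v ∈ Pu) ∧
      (∀ k : ℕ, ∀ v ∈ Ps, ‖(⇑A)^[k] v‖ ≤ C * a ^ k * ‖v‖) ∧
      ∀ k : ℕ, ∀ v ∈ Pu, ‖(⇑A.symm)^[k] v‖ ≤ C * a ^ k * ‖v‖

/-- HYPFIN: a finite invariant set of hyperbolic periodic points is a hyperbolic set (for any given
continuous norm on the tangent bundle). -/
def S_HYPFIN : Prop :=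
  ∀ (n : ℕ) (N : Type u) [MetricSpace N] [CompactSpace N] [ChartedSpace (V n) N]
    [IsManifold (𝓡 n) ∞ N] (r : ℕ∞), 1 ≤ r → ∀ (F : DiffM n N r)
    (Nm : TangentBundle 𝓘(ℝ, V n) N → ℝ), IsTangentNorm Nm → ∀ P : Set N, P.Finite →
    F '' P = P → (∀ p ∈ P, Pool.Agent.Y504.CO.HypAt n F p) →
    ∃ (Es Eu : ∀ x : N, Submodule ℝ (TangentSpace 𝓘(ℝ, V n) x)) (C a : ℝ),
      Q263.HS.IsHypOn F.toHomeomorph P Nm Es Eu C a

/-- ACT: the action of `ℝ^d` on `N` by translations along the torus coordinates of a tube, cut off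
away from the core (so that it is trivial on a given closed set `K` which is disjoint from the
core). -/
def S_ACT : Prop :=
  ∀ (n d : ℕ) (N : Type u) [TopologicalSpace N] [T2Space N] [CompactSpace N]
    [ChartedSpace (V n) N] [IsManifold (𝓡 n) ∞ N] (r : ℕ∞), 1 ≤ r → d ≤ n →
    ∀ E : V n → N, Tube n d r E → ∀ K : Set N, IsClosed K → (∀ x, E (emb n d x) ∉ K) →
    ∃ Φ : (Fin d → ℝ) → N → N, Q263.HS.IsAction (V n) r Φ ∧
      (∀ u x, Φ u (E (emb n d x)) = E (emb n d (x + u))) ∧ ∀ u, ∀ y ∈ K, Φ u y = y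

end Q263.IC
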