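import Mathlib
import Pool.Agent.Q263.IC.Def

/-!
# Invariant tori of stable diffeomorphisms: the statements

`TorusCycle`, `Adm`: `Pool/Agent/Q263/IC/Def.lean`; `cyc n F d m E`: the union of the tori of the
cycle (`Pool/Agent/Q192/FT/Defs.lean`); `IsHyp`, `IsCentreHyp`: `Pool/Agent/Q263/HS/Def.lean`.
-/

set_option autoImplicit false

open scoped Manifold ContDiff Topology
open Set Filter Pool.Agent.H718R2.G Pool.Agent.H728R2.OS Pool.Agent.Q192.FT

universe u

namespace Q263.IC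

/-- `p` is a hyperbolic periodic point of `F`: `F^k(p) = p` for some `k ≥ 1`, and for every such `k`
no eigenvalue of the derivative of `F^k` at `p` (in any chart of `N`) has modulus one. -/
def HypPer (n : ℕ) {N : Type u} [TopologicalSpace N] [ChartedSpace (V n) N]
    (F : N → N) (p : N) : Prop :=
  (∃ k : ℕ, 1 ≤ k ∧ F^[k] p = p) ∧ ∀ k : ℕ, 1 ≤ k → F^[k] p = p →
    ∀ ψ ∈ IsManifold.maximalAtlas (𝓡 n) ∞ N, p ∈ ψ.source →
    ∃ D : V n →L[ℝ] V n, HasFDerivAt (fun v => ψ (F^[k] (ψ.symm v))) D (ψ p) ∧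
      ∀ μ : ℂ, ((LinearMap.charpoly (D : V n →ₗ[ℝ] V n)).map (algebraMap ℝ ℂ)).IsRoot μ → ‖μ‖ ≠ 1

/-- `x` is chain recurrent for the restriction of `F` to `K`: for every `ε > 0` there is a closed
`ε`-chain of `F` in `K` through `x`. -/
def ChainRecIn {N : Type u} [MetricSpace N] (F : N → N) (K : Set N) (x : N) : Prop :=
  ∀ ε : ℝ, 0 < ε → ∃ (k : ℕ) (c : ℕ → N), 0 < k ∧ c 0 = x ∧ c k = x ∧ (∀ i ≤ k, c i ∈ K) ∧
    ∀ i < k, dist (F (c i)) (c (i + 1)) < ε

/-- The dynamics of `F` on the set `K`: `F` has finitely many periodic points in `K`, and at least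
one; they are hyperbolic (for `F`, in all directions of `N`); and all chain recurrent points of the
restriction of `F` to `K` are periodic. -/
structure MorseOn (n : ℕ) {N : Type u} [MetricSpace N] [ChartedSpace (V n) N] {r : ℕ∞}
    (F : DiffM n N r) (K : Set N) : Prop where
  finite : (K ∩ Per F.toHomeomorph).Finite
  nonempty : (K ∩ Per F.toHomeomorph).Nonempty
  hyp : ∀ p ∈ K ∩ Per F.toHomeomorph, HypPer n F p
  chain : ∀ x ∈ K, ChainRecIn F K x → x ∈ Per F.toHomeomorph

/-- The chain recurrent set of `F` is contained in the union of a hyperbolic set `Λ₀`, of a family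
`S` of sets each of which is hyperbolic transversally to the orbits of a commuting action, and of
finitely many cycles of invariant tori with return maps in the class `Adm r`, which are disjoint
from each other and from `Λ₀`. -/
def ToriCovered (n : ℕ) {N : Type u} [MetricSpace N] [ChartedSpace (V n) N]
    [IsManifold (𝓡 n) ∞ N] (r : ℕ∞) (F : DiffM n N r) : Prop :=
  ∃ (Λ₀ : Set N) (S : Set (Set N)) (p : ℕ) (d m : Fin p → ℕ) (E : Fin p → V n → N)
    (f : ∀ j, Torus (d j) ≃ₜ Torus (d j)),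
    Q263.HS.IsHyp (V n) F.toHomeomorph Λ₀ ∧
    (∀ Λ ∈ S, Q263.HS.IsCentreHyp (V n) r F.toHomeomorph Λ) ∧
    (∀ j, TorusCycle n r F (d j) (m j) (E j) (f j) ∧ Adm r (f j)) ∧
    (∀ i j, i ≠ j → Disjoint (cyc n F (d i) (m i) (E i)) (cyc n F (d j) (m j) (E j))) ∧
    (∀ j, Disjoint Λ₀ (cyc n F (d j) (m j) (E j))) ∧
    ChainRec F.toHomeomorph ⊆ Λ₀ ∪ ⋃₀ S ∪ ⋃ j, cyc n F (d j) (m j) (E j)

end Q263.IC
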