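import Mathlib
import Pool.Agent.H922R3.CL.Circ

/-! Families of circle maps: the first parameter with a periodic point is a tangency. -/

set_option autoImplicit false

open Set Filter Topology Pool.Agent.H922R3.CL

namespace Q263.IC

variable {γ : ℕ → ℝ → ℝ}

theorem XO_cont2 (hγ : ∀ j, Continuous (γ j)) (n : ℕ) :
    Continuous fun p : ℝ × ℝ => XO γ p.1 p.2 n := by
  induction n with
  | zero => exact continuous_fst
  | succ n ih => exact ((hγ n).comp ih).add continuous_snd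

theorem XO_mono_e (hm : ∀ j, StrictMono (γ j)) (y : ℝ) (n : ℕ) :
    Monotone fun e => XO γ y e n := by
  induction n with
  | zero => exact fun _ _ _ => le_rfl
  | succ n ih =>
    intro a b hab
    have h1 : XO γ y a n ≤ XO γ y b n := ih hab
    show γ n (XO γ y a n) + a ≤ γ n (XO γ y b n) + b
    exact add_le_add ((hm n).monotone h1) hab

theorem XO_deg (hd : ∀ j y, γ j (y + 1) = γ j y + 1) (y e : ℝ) (n : ℕ) :
    XO γ (y + 1) e n = XO γ y e n + 1 := by
  induction n with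
  | zero => rfl
  | succ n ih =>
    show γ n (XO γ (y + 1) e n) + e = γ n (XO γ y e n) + e + 1
    rw [ih, hd]
    ring

theorem XO_deg_int (hd : ∀ j y, γ j (y + 1) = γ j y + 1) (e : ℝ) (n : ℕ) (k : ℤ) (y : ℝ) :
    XO γ (y + k) e n = XO γ y e n + k := by
  have h1 : ∀ (j : ℕ) (y : ℝ), XO γ (y + j) e n = XO γ y e n + j := by
    intro j
    induction j with
    | zero => intro y; simp
    | succ j ih =>
      intro y
      have : y + ((j + 1 : ℕ) : ℝ) = (y + j) + 1 := by push_cast; ring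
      rw [this, XO_deg hd, ih]
      push_cast
      ring
  obtain ⟨j, hj | hj⟩ := k.eq_nat_or_neg
  · rw [hj]
    exact_mod_cast h1 j y
  · have h2 := h1 j (y + k)
    have e1 : (k : ℝ) = -(j : ℝ) := by rw [hj]; push_cast; rfl
    rw [e1] at h2 ⊢
    rw [neg_add_cancel_right] at h2
    linarith

theorem tangency_pos (hγ : ∀ j, Continuous (γ j)) (hm : ∀ j, StrictMono (γ j))
    (hd : ∀ j y, γ j (y + 1) = γ j y + 1) (n : ℕ) (m : ℤ) {e a : ℝ} (he : 0 < e)
    (ha : XO γ a e n = a + m) (h0 : ∀ y, XO γ y 0 n ≠ y + m) :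
    ∃ e0 y0 : ℝ, 0 < e0 ∧ e0 ≤ e ∧ XO γ y0 e0 n = y0 + m ∧ ∀ y, XO γ y e0 n ≤ y + m := by
  set S : Set ℝ := Prod.snd '' {p : ℝ × ℝ | p ∈ Icc (0 : ℝ) 1 ×ˢ Icc (0 : ℝ) e ∧
    XO γ p.1 p.2 n = p.1 + m} with hS
  have hred : ∀ (y t : ℝ), t ∈ Icc (0 : ℝ) e → XO γ y t n = y + m → t ∈ S := by
    intro y t ht hy
    refine ⟨(Int.fract y, t), ⟨⟨⟨Int.fract_nonneg _, (Int.fract_lt_one _).le⟩, ht⟩, ?_⟩, rfl⟩
    have h1 := XO_deg_int hd t n (-⌊y⌋) y
    have e1 : y + ((-⌊y⌋ : ℤ) : ℝ) = Int.fract y := by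
      rw [Int.fract]; push_cast; ring
    rw [e1] at h1
    show XO γ (Int.fract y) t n = Int.fract y + m
    rw [h1, hy, ← e1]
    ring
  have hcomp : IsCompact S := by
    have hcl : IsClosed {p : ℝ × ℝ | XO γ p.1 p.2 n = p.1 + m} :=
      isClosed_eq (XO_cont2 hγ n) (continuous_fst.add continuous_const)
    exact ((isCompact_Icc.prod isCompact_Icc).inter_right hcl).image continuous_snd
  have hne : S.Nonempty := ⟨e, hred a e ⟨he.le, le_rfl⟩ ha⟩
  have hmem := hcomp.sInf_mem hne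
  set e0 := sInf S with he0
  obtain ⟨⟨y0, t0⟩, ⟨⟨-, ht0⟩, hy0⟩, htt⟩ := id hmem
  simp only at htt ht0 hy0
  clear_value e0
  subst htt
  have hpos : 0 < t0 := by
    rcases ht0.1.eq_or_lt with h | h
    · rw [← h] at hy0
      exact absurd hy0 (h0 y0)
    · exact h
  refine ⟨t0, y0, hpos, ht0.2, hy0, fun y1 => ?_⟩
  by_contra hcon
  push Not at hcon
  -- a smaller parameter
  have hc : ContinuousAt (fun t => XO γ y1 t n) t0 := (XO_cont hγ y1 n).continuousAt
  have h1 : ∀ᶠ t in 𝓝 t0, y1 + m < XO γ y1 t n := hc.eventually (lt_mem_nhds hcon)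
  have h2 : ∀ᶠ t in 𝓝[<] t0, y1 + m < XO γ y1 t n := h1.filter_mono nhdsWithin_le_nhds
  have h3 : ∀ᶠ t in 𝓝[<] t0, t ∈ Ioo 0 t0 := Ioo_mem_nhdsLT hpos
  obtain ⟨t, ht1, ht2⟩ := (h2.and h3).exists
  have h4 : XO γ y0 t n ≤ y0 + m := by
    rw [← hy0]
    exact XO_mono_e hm y0 n ht2.2.le
  have hcy : Continuous fun y => XO γ y t n - (y + m) :=
    ((XO_cont2 hγ n).comp (continuous_id.prodMk continuous_const)).sub
      (continuous_id.add continuous_const)
  have h5 : (0 : ℝ) ∈ range fun y => XO γ y t n - (y + m) := by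
    refine mem_range_of_exists_le_of_exists_ge hcy ⟨y0, ?_⟩ ⟨y1, ?_⟩
    · linarith
    · linarith
  obtain ⟨y, hy⟩ := h5
  have h6 := hred y t ⟨ht2.1.le, ht2.2.le.trans ht0.2⟩ (by linarith [hy])
  have h7 : sInf S ≤ t := csInf_le ⟨0, by
    rintro _ ⟨p, hp, rfl⟩
    exact hp.1.2.1⟩ h6
  rw [← he0] at h7
  exact absurd h7 (not_le.2 ht2.2)

theorem XO_neg (y e : ℝ) (n : ℕ) :
    XO (fun j t => -γ j (-t)) (-y) (-e) n = -XO γ y e n := by
  induction n with
  | zero => rfl
  | succ n ih =>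
    show -γ n (-(XO (fun j t => -γ j (-t)) (-y) (-e) n)) + -e = -(γ n (XO γ y e n) + e)
    rw [ih, neg_neg]
    ring

/-- the first parameter at which a periodic point appears is a tangency -/
theorem tangency (hγ : ∀ j, Continuous (γ j)) (hm : ∀ j, StrictMono (γ j))
    (hd : ∀ j y, γ j (y + 1) = γ j y + 1) (n : ℕ) (m : ℤ) {e a : ℝ}
    (ha : XO γ a e n = a + m) (h0 : ∀ y, XO γ y 0 n ≠ y + m) :
    ∃ e0 y0 : ℝ, |e0| ≤ |e| ∧ XO γ y0 e0 n = y0 + m ∧
      ((∀ y, XO γ y e0 n ≤ y + m) ∨ ∀ y, y + m ≤ XO γ y e0 n) := by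
  rcases lt_trichotomy e 0 with he | he | he
  · have h1 : XO (fun j t => -γ j (-t)) (-a) (-e) n = -a + ((-m : ℤ) : ℝ) := by
      rw [XO_neg, ha]
      push_cast
      ring
    obtain ⟨e0, y0, h2, h3, h4, h5⟩ := tangency_pos (γ := fun j t => -γ j (-t))
      (fun j => ((hγ j).comp continuous_neg).neg)
      (fun j s t hst => neg_lt_neg (hm j (neg_lt_neg hst)))
      (fun j y => by
        show -γ j (-(y + 1)) = -γ j (-y) + 1
        have := hd j (-(y + 1))
        rw [neg_add, neg_add_cancel_right] at this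
        rw [neg_add, this]
        ring) n (-m) (neg_pos.2 he) h1 (fun y hy => by
          have := XO_neg (γ := γ) (-y) 0 n
          rw [neg_neg, neg_zero, hy] at this
          apply h0 (-y)
          push_cast at this
          linarith)
    refine ⟨-e0, -y0, ?_, ?_, Or.inr fun y => ?_⟩
    · rw [abs_neg, abs_of_pos h2, abs_of_neg he]
      exact h3
    · have := XO_neg (γ := γ) (-y0) (-e0) n
      rw [neg_neg, neg_neg, h4] at this
      push_cast at this
      linarith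
    · have := XO_neg (γ := γ) y (-e0) n
      rw [neg_neg] at this
      have h6 := h5 (-y)
      rw [this] at h6
      push_cast at h6
      linarith
  · rw [he] at ha
    exact absurd ha (h0 a)
  · obtain ⟨e0, y0, h2, h3, h4, h5⟩ := tangency_pos hγ hm hd n m he ha h0
    refine ⟨e0, y0, ?_, h4, Or.inl h5⟩
    rw [abs_of_pos h2, abs_of_pos he]
    exact h3

end Q263.IC
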