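import Mathlib
import Pool.Agent.Q263.IC.Tan
import Pool.Agent.Q192.FT.Tor

/-! The star property of lifts of skew products passes to the base; existence of periodic points in
the fibres over periodic points. -/

set_option autoImplicit false

open Set Filter Topology Pool.Agent.H922R3.CL
open Pool.Agent.Q192.FT (IsI)

namespace Q263.IC

/-- the map followed by a translation -/
def tra {V : Type} [AddCommGroup V] (F : V → V) (u : V) : V → V := fun p => F p + u

/-- the star property for the lift `F`: for all small translations `u`, no periodic point (modulo the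
integer vectors) of `F + u` has the eigenvalue `1` -/
def StarL {V : Type} [NormedAddCommGroup V] [NormedSpace ℝ V] (I : V → Prop) (F : V → V) : Prop :=
  ∃ δ : ℝ, 0 < δ ∧ ∀ u : V, ‖u‖ < δ → ∀ (N : ℕ) (z : V), 0 < N → I ((tra F u)^[N] z - z) →
    ∀ v, fderiv ℝ ((tra F u)^[N]) z v = v → v = 0

variable {d : ℕ}

/-- integer vectors of `ℝ^d × ℝ` -/
def I1 (p : (Fin d → ℝ) × ℝ) : Prop := IsI p.1 ∧ ∃ n : ℤ, p.2 = n

theorem isI_zero : IsI (0 : Fin d → ℝ) := fun _ => ⟨0, by simp⟩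

theorem isI_add {a b : Fin d → ℝ} (ha : IsI a) (hb : IsI b) : IsI (a + b) := by
  intro i
  obtain ⟨m, hm⟩ := ha i
  obtain ⟨n, hn⟩ := hb i
  exact ⟨m + n, by rw [Pi.add_apply, hm, hn]; push_cast; ring⟩

theorem isI_neg {a : Fin d → ℝ} (ha : IsI a) : IsI (-a) := by
  intro i
  obtain ⟨m, hm⟩ := ha i
  exact ⟨-m, by rw [Pi.neg_apply, hm]; push_cast; ring⟩

theorem I1_add {a b : (Fin d → ℝ) × ℝ} (ha : I1 a) (hb : I1 b) : I1 (a + b) := by
  obtain ⟨h1, m, hm⟩ := ha
  obtain ⟨h2, n, hn⟩ := hb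
  exact ⟨isI_add h1 h2, m + n, by rw [Prod.snd_add, hm, hn]; push_cast; ring⟩

/-- lifts of skew products over the torus with the fibre the circle -/
structure Skew (F : (Fin d → ℝ) × ℝ → (Fin d → ℝ) × ℝ) : Prop where
  smooth : ContDiff ℝ 1 F
  tri : ∀ z y, (F (z, y)).1 = (F (z, 0)).1
  mono : ∀ z, StrictMono fun y : ℝ => (F (z, y)).2
  deg : ∀ z y, (F (z, y + 1)).2 = (F (z, y)).2 + 1
  per : ∀ k, I1 k → ∃ c, I1 c ∧ ∀ p, F (p + k) = F p + c

/-- the base map -/
def bas (F : (Fin d → ℝ) × ℝ → (Fin d → ℝ) × ℝ) : (Fin d → ℝ) → (Fin d → ℝ) := fun z => (F (z, 0)).1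

/-- the fibre maps along the orbit of `z` -/
def fib (F : (Fin d → ℝ) × ℝ → (Fin d → ℝ) × ℝ) (u z : Fin d → ℝ) : ℕ → ℝ → ℝ :=
  fun j y => (F ((tra (bas F) u)^[j] z, y)).2

variable {F : (Fin d → ℝ) × ℝ → (Fin d → ℝ) × ℝ}

theorem Skew.iter (h : Skew F) (u : Fin d → ℝ) (e : ℝ) (z : Fin d → ℝ) (y : ℝ) (n : ℕ) :
    (tra F (u, e))^[n] (z, y) = ((tra (bas F) u)^[n] z, XO (fib F u z) y e n) := by
  induction n with
  | zero => rfl
  | succ n ih =>
    rw [Function.iterate_succ_apply', ih, Function.iterate_succ_apply']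
    refine Prod.ext ?_ rfl
    show (F ((tra (bas F) u)^[n] z, XO (fib F u z) y e n)).1 + u = bas F ((tra (bas F) u)^[n] z) + u
    rw [h.tri]
    rfl

theorem Skew.per_iter (h : Skew F) (w : (Fin d → ℝ) × ℝ) (n : ℕ) : ∀ k, I1 k →
    ∃ c, I1 c ∧ ∀ p, (tra F w)^[n] (p + k) = (tra F w)^[n] p + c := by
  induction n with
  | zero => intro k hk; exact ⟨k, hk, fun p => rfl⟩
  | succ n ih =>
    intro k hk
    obtain ⟨c, hc, h1⟩ := ih k hk
    obtain ⟨c', hc', h2⟩ := h.per c hc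
    refine ⟨c', hc', fun p => ?_⟩
    rw [Function.iterate_succ_apply', h1, Function.iterate_succ_apply']
    show F ((tra F w)^[n] p + c) + w = F ((tra F w)^[n] p) + w + c'
    rw [h2]
    abel

theorem Skew.cont_fib (h : Skew F) (u z : Fin d → ℝ) (j : ℕ) : Continuous (fib F u z j) :=
  continuous_snd.comp (h.smooth.continuous.comp (continuous_const.prodMk continuous_id))

theorem Skew.mono_fib (h : Skew F) (u z : Fin d → ℝ) (j : ℕ) : StrictMono (fib F u z j) := h.mono _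

theorem Skew.deg_fib (h : Skew F) (u z : Fin d → ℝ) (j : ℕ) (y : ℝ) :
    fib F u z j (y + 1) = fib F u z j y + 1 := h.deg _ _

/-- the base map commutes with integer translations up to integer translations -/
theorem Skew.bas_per (h : Skew F) (k : Fin d → ℝ) (hk : IsI k) :
    ∃ c, IsI c ∧ ∀ z, bas F (z + k) = bas F z + c := by
  obtain ⟨c, hc, h1⟩ := h.per (k, 0) ⟨hk, 0, by simp⟩
  refine ⟨c.1, hc.1, fun z => ?_⟩
  have h2 := congrArg Prod.fst (h1 (z, 0))
  rw [Prod.mk_add_mk, add_zero] at h2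
  exact h2

theorem bas_iter (hB : ∀ k : Fin d → ℝ, IsI k → ∃ c, IsI c ∧ ∀ z, bas F (z + k) = bas F z + c)
    (u : Fin d → ℝ) (n : ℕ) : ∀ k, IsI k →
    ∃ c, IsI c ∧ ∀ z, (tra (bas F) u)^[n] (z + k) = (tra (bas F) u)^[n] z + c := by
  induction n with
  | zero => intro k hk; exact ⟨k, hk, fun p => rfl⟩
  | succ n ih =>
    intro k hk
    obtain ⟨c, hc, h1⟩ := ih k hk
    obtain ⟨c', hc', h2⟩ := hB c hc
    refine ⟨c', hc', fun p => ?_⟩
    rw [Function.iterate_succ_apply', h1, Function.iterate_succ_apply']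
    show bas F ((tra (bas F) u)^[n] p + c) + u = bas F ((tra (bas F) u)^[n] p) + u + c'
    rw [h2]
    abel

theorem Skew.bas_mul (h : Skew F) {u z : Fin d → ℝ} {N : ℕ}
    (hz : IsI ((tra (bas F) u)^[N] z - z)) (k : ℕ) : IsI ((tra (bas F) u)^[N * k] z - z) := by
  induction k with
  | zero => simpa using isI_zero
  | succ k ih =>
    have h1 : (tra (bas F) u)^[N * (k + 1)] z = (tra (bas F) u)^[N * k] ((tra (bas F) u)^[N] z) := by
      rw [← Function.iterate_add_apply]
      rfl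
    obtain ⟨c, hc, h2⟩ := bas_iter h.bas_per u (N * k) _ hz
    have h3 := h2 z
    rw [add_sub_cancel] at h3
    rw [h1, h3]
    have e : (tra (bas F) u)^[N * k] z + c - z = ((tra (bas F) u)^[N * k] z - z) + c := by abel
    rw [e]
    exact isI_add ih hc

/-- recurrence in the fibre -/
theorem Skew.recur (h : Skew F) {u z : Fin d → ℝ} {N : ℕ}
    (hz : IsI ((tra (bas F) u)^[N] z - z)) {η : ℝ} (hη : 0 < η) :
    ∃ (a : ℝ) (k : ℕ) (m : ℤ), 0 < k ∧ |XO (fib F u z) a 0 (N * k) - (a + m)| < η := by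
  set y : ℕ → ℝ := fun i => XO (fib F u z) 0 0 (N * i) with hy
  have hfin : ∃ i j : ℕ, i < j ∧ |Int.fract (y j) - Int.fract (y i)| < η := by
    have hseq : ∀ i, Int.fract (y i) ∈ Icc (0 : ℝ) 1 := fun i =>
      ⟨Int.fract_nonneg _, (Int.fract_lt_one _).le⟩
    obtain ⟨c, -, φ, hφ, hlim⟩ := isCompact_Icc.tendsto_subseq hseq
    have h1 : ∀ᶠ i in atTop, |Int.fract (y (φ i)) - c| < η / 2 := by
      have := (Metric.tendsto_atTop.1 hlim) (η / 2) (by positivity)
      obtain ⟨M, hM⟩ := this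
      filter_upwards [eventually_ge_atTop M] with i hi
      have := hM i hi
      rwa [Real.dist_eq] at this
    obtain ⟨M, hM⟩ := eventually_atTop.1 h1
    refine ⟨φ M, φ (M + 1), hφ (Nat.lt_succ_self M), ?_⟩
    have a1 := abs_lt.1 (hM M le_rfl)
    have a2 := abs_lt.1 (hM (M + 1) (Nat.le_succ M))
    rw [abs_lt]
    constructor <;> linarith [a1.1, a1.2, a2.1, a2.2]
  obtain ⟨i, j, hij, hfr⟩ := hfin
  -- the orbit from time `N i`
  have hK : I1 (((tra (bas F) u)^[N * i] z - z, (0 : ℝ)) : (Fin d → ℝ) × ℝ) :=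
    ⟨h.bas_mul hz i, 0, by simp⟩
  obtain ⟨c, hc, hcp⟩ := h.per_iter (u, 0) (N * (j - i)) _ hK
  have e1 := h.iter u 0 z 0 (N * i)
  have e2 := h.iter u 0 z 0 (N * j)
  have e3 := h.iter u 0 z (y i) (N * (j - i))
  have e4 : (tra F (u, 0))^[N * j] (z, 0) =
      (tra F (u, 0))^[N * (j - i)] ((tra F (u, 0))^[N * i] (z, 0)) := by
    rw [← Function.iterate_add_apply, ← Nat.mul_add, Nat.sub_add_cancel hij.le]
  have e5 : (tra F (u, (0 : ℝ)))^[N * i] (z, 0) = (z, y i) +
      (((tra (bas F) u)^[N * i] z - z, (0 : ℝ)) : (Fin d → ℝ) × ℝ) := by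
    rw [e1, Prod.mk_add_mk, add_sub_cancel, add_zero]
  rw [e4, e5, hcp, e3] at e2
  have e6 : XO (fib F u z) (y i) 0 (N * (j - i)) + c.2 = y j := congrArg Prod.snd e2
  obtain ⟨m, hm⟩ := hc.2
  refine ⟨y i, j - i, ⌊y j⌋ - ⌊y i⌋ - m, by omega, ?_⟩
  have e7 : XO (fib F u z) (y i) 0 (N * (j - i)) - (y i + ((⌊y j⌋ - ⌊y i⌋ - m : ℤ) : ℝ)) =
      Int.fract (y j) - Int.fract (y i) := by
    have h1 : XO (fib F u z) (y i) 0 (N * (j - i)) = y j - m := by rw [← e6, hm]; ring
    rw [h1, Int.fract, Int.fract]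
    push_cast
    ring
  rw [e7]
  exact hfr

/-- a small translation in the fibre creates a periodic point over a periodic point of the base -/
theorem Skew.close (h : Skew F) {u z : Fin d → ℝ} {N : ℕ} (hN : 0 < N)
    (hz : IsI ((tra (bas F) u)^[N] z - z)) {η : ℝ} (hη : 0 < η) :
    ∃ (e a : ℝ) (k : ℕ) (m : ℤ), |e| ≤ η ∧ 0 < k ∧ XO (fib F u z) a e (N * k) = a + m := by
  obtain ⟨a, k, m, hk, hak⟩ := h.recur hz hη
  set n := N * k with hn
  have hn0 : 0 < n := Nat.mul_pos hN hk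
  set c : ℕ → ℝ := fun l => if l < n then XO (fib F u z) a 0 l else a + m with hc
  obtain ⟨e, he, h1⟩ := XO_close (h.cont_fib u z) (fun j => (h.mono_fib u z j).monotone) hη.le n c
    (fun l hl => by
      show |fib F u z l (c l) - c (l + 1)| ≤ η
      have h2 : c l = XO (fib F u z) a 0 l := if_pos hl
      have h3 : fib F u z l (XO (fib F u z) a 0 l) = XO (fib F u z) a 0 (l + 1) := by
        show _ = fib F u z l (XO (fib F u z) a 0 l) + 0
        rw [add_zero]
      rw [h2, h3]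
      by_cases hl' : l + 1 < n
      · have h4 : c (l + 1) = XO (fib F u z) a 0 (l + 1) := if_pos hl'
        rw [h4, sub_self, abs_zero]
        exact hη.le
      · have h4 : c (l + 1) = a + m := if_neg hl'
        have h5 : l + 1 = n := by omega
        rw [h4, h5]
        exact hak.le)
  have h2 : c 0 = a := if_pos hn0
  have h3 : c n = a + m := if_neg (lt_irrefl n)
  rw [h2, h3] at h1
  exact ⟨e, a, k, m, he, hk, h1⟩

theorem Skew.diff_iter (h : Skew F) (w : (Fin d → ℝ) × ℝ) (n : ℕ) :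
    Differentiable ℝ ((tra F w)^[n]) := by
  have h1 : Differentiable ℝ (tra F w) := (h.smooth.differentiable one_ne_zero).add_const w
  exact h1.iterate n

theorem Skew.bas_smooth (h : Skew F) : ContDiff ℝ 1 (bas F) :=
  contDiff_fst.comp (h.smooth.comp (contDiff_id.prodMk contDiff_const))

theorem Skew.diff_bas (h : Skew F) (u : Fin d → ℝ) (n : ℕ) :
    Differentiable ℝ ((tra (bas F) u)^[n]) := by
  have h1 : Differentiable ℝ (tra (bas F) u) :=
    (h.bas_smooth.differentiable one_ne_zero).add_const u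
  exact h1.iterate n

/-- the base component of the derivative -/
theorem Skew.fderiv_fst (h : Skew F) (u : Fin d → ℝ) (e : ℝ) (n : ℕ) (z : Fin d → ℝ) (y : ℝ)
    (v : (Fin d → ℝ) × ℝ) :
    (fderiv ℝ ((tra F (u, e))^[n]) (z, y) v).1 = fderiv ℝ ((tra (bas F) u)^[n]) z v.1 := by
  have h1 : HasFDerivAt (fun p : (Fin d → ℝ) × ℝ => ((tra F (u, e))^[n] p).1)
      ((ContinuousLinearMap.fst ℝ (Fin d → ℝ) ℝ) ∘L (fderiv ℝ ((tra F (u, e))^[n]) (z, y))) (z, y) :=
    (ContinuousLinearMap.fst ℝ (Fin d → ℝ) ℝ).hasFDerivAt.comp _ (h.diff_iter (u, e) n _).hasFDerivAt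
  have h2 : HasFDerivAt (fun p : (Fin d → ℝ) × ℝ => (tra (bas F) u)^[n] p.1)
      ((fderiv ℝ ((tra (bas F) u)^[n]) z) ∘L (ContinuousLinearMap.fst ℝ (Fin d → ℝ) ℝ)) (z, y) :=
    HasFDerivAt.comp (g := (tra (bas F) u)^[n]) (z, y) (h.diff_bas u n z).hasFDerivAt hasFDerivAt_fst
  have h3 : (fun p : (Fin d → ℝ) × ℝ => ((tra F (u, e))^[n] p).1) =
      fun p => (tra (bas F) u)^[n] p.1 := by
    funext p
    have := h.iter u e p.1 p.2 n
    exact congrArg Prod.fst this
  rw [h3] at h1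
  have h4 := h1.unique h2
  exact congrArg (fun L => L v) h4

/-- the derivative in the direction of the fibre -/
theorem Skew.fderiv_fib (h : Skew F) (u : Fin d → ℝ) (e : ℝ) (n : ℕ) (z : Fin d → ℝ) (y : ℝ) :
    HasDerivAt (fun t => XO (fib F u z) t e n)
      (fderiv ℝ ((tra F (u, e))^[n]) (z, y) (0, 1)).2 y ∧
    fderiv ℝ ((tra F (u, e))^[n]) (z, y) (0, 1) =
      (0, (fderiv ℝ ((tra F (u, e))^[n]) (z, y) (0, 1)).2) := by
  constructor
  · have h0 : HasDerivAt (fun t : ℝ => ((z, t) : (Fin d → ℝ) × ℝ)) (0, 1) y :=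
      (hasDerivAt_const y z).prodMk (hasDerivAt_id y)
    have h1 := (h.diff_iter (u, e) n (z, y)).hasFDerivAt.comp_hasDerivAt y h0
    have h2 := (ContinuousLinearMap.snd ℝ (Fin d → ℝ) ℝ).hasFDerivAt.comp_hasDerivAt y h1
    have h3 : (fun t : ℝ => XO (fib F u z) t e n) =
        (ContinuousLinearMap.snd ℝ (Fin d → ℝ) ℝ) ∘ ((tra F (u, e))^[n] ∘ fun t : ℝ => (z, t)) := by
      funext t
      have := congrArg Prod.snd (h.iter u e z t n)
      exact this.symm
    rw [h3]
    exact h2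
  · refine Prod.ext ?_ rfl
    rw [h.fderiv_fst]
    exact map_zero _

/-- **The base has the star property.** -/
theorem Skew.star_base (h : Skew F) (hS : StarL I1 F) : StarL IsI (bas F) := by
  obtain ⟨δ, hδ, hS⟩ := hS
  refine ⟨δ, hδ, fun u hu N z hN hz v hv => ?_⟩
  obtain ⟨e, a, k, m, he, hk, hak⟩ := h.close hN hz (half_pos hδ)
  have hnorm : ‖((u, e) : (Fin d → ℝ) × ℝ)‖ < δ := by
    rw [Prod.norm_def]
    exact max_lt hu (by rw [Real.norm_eq_abs]; linarith)
  have hper : I1 ((tra F (u, e))^[N * k] (z, a) - (z, a)) := by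
    rw [h.iter]
    exact ⟨h.bas_mul hz k, m, by
      show XO (fib F u z) a e (N * k) - a = m
      rw [hak]; ring⟩
  have key := hS (u, e) hnorm (N * k) (z, a) (Nat.mul_pos hN hk) hper
  set D := fderiv ℝ ((tra F (u, e))^[N * k]) (z, a) with hD
  obtain ⟨-, hfib⟩ := h.fderiv_fib u e (N * k) z a
  rw [← hD] at hfib
  set c := (D (0, 1)).2 with hc
  have hc1 : c ≠ 1 := by
    intro hc1
    have := key (0, 1) (by rw [hfib, hc1])
    have h2 := congrArg Prod.snd this
    exact one_ne_zero h2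
  -- the iterates of the base
  have hbase : ∀ k : ℕ, fderiv ℝ ((tra (bas F) u)^[N * k]) z v = v := by
    intro k
    induction k with
    | zero =>
      have : (tra (bas F) u)^[N * 0] = id := rfl
      rw [this, fderiv_id]
      rfl
    | succ k ih =>
      have e1 : (tra (bas F) u)^[N * (k + 1)] = (tra (bas F) u)^[N * k] ∘ (tra (bas F) u)^[N] := by
        rw [← Function.iterate_add]
        rfl
      obtain ⟨c', -, h2⟩ := bas_iter h.bas_per u (N * k) _ hz
      have e2 : fderiv ℝ ((tra (bas F) u)^[N * k]) ((tra (bas F) u)^[N] z) =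
          fderiv ℝ ((tra (bas F) u)^[N * k]) z := by
        have e3 : (tra (bas F) u)^[N] z = z + ((tra (bas F) u)^[N] z - z) := by abel
        rw [e3, ← fderiv_comp_add_right]
        have e4 : (fun x => (tra (bas F) u)^[N * k] (x + ((tra (bas F) u)^[N] z - z))) =
            fun x => (tra (bas F) u)^[N * k] x + c' := funext h2
        rw [e4, fderiv_add_const]
      rw [e1, fderiv_comp z (h.diff_bas u (N * k) _) (h.diff_bas u N z), e2]
      show fderiv ℝ ((tra (bas F) u)^[N * k]) z (fderiv ℝ ((tra (bas F) u)^[N]) z v) = v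
      rw [hv, ih]
  set b := (D (v, 0)).2 with hb
  set s := b / (1 - c) with hs
  have hsub : (1 - c) ≠ 0 := sub_ne_zero.2 (Ne.symm hc1)
  have h5 : D (v, s) = (v, s) := by
    have e1 : ((v, s) : (Fin d → ℝ) × ℝ) = (v, 0) + s • (0, 1) := by
      refine Prod.ext ?_ ?_
      · simp
      · simp
    have e2 : D (v, 0) = (v, b) := by
      refine Prod.ext ?_ rfl
      rw [hD, h.fderiv_fst]
      exact hbase k
    conv_lhs => rw [e1]
    rw [map_add, map_smul, e2, hfib]
    refine Prod.ext ?_ ?_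
    · simp
    · show b + s * c = s
      rw [hs]
      field_simp
      ring
  have h6 := key (v, s) h5
  exact congrArg Prod.fst h6

/-- **Periodic points in the fibres over the periodic points of the base.** -/
theorem Skew.exists_per (h : Skew F) (hS : StarL I1 F) {z : Fin d → ℝ} {N : ℕ} (hN : 0 < N)
    (hz : IsI ((tra (bas F) 0)^[N] z - z)) :
    ∃ (k : ℕ) (m : ℤ) (y : ℝ), 0 < k ∧ XO (fib F 0 z) y 0 (N * k) = y + m := by
  obtain ⟨δ, hδ, hS⟩ := hS
  by_contra hcon
  push Not at hcon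
  obtain ⟨e, a, k, m, he, hk, hak⟩ := h.close hN hz (half_pos hδ)
  obtain ⟨e0, y0, he0, hy0, hext⟩ := tangency (h.cont_fib 0 z) (h.mono_fib 0 z) (h.deg_fib 0 z)
    (N * k) m hak (fun y => hcon k m y hk)
  have hnorm : ‖(((0 : Fin d → ℝ), e0) : (Fin d → ℝ) × ℝ)‖ < δ := by
    rw [Prod.norm_def]
    exact max_lt (by rw [norm_zero]; exact hδ) (by rw [Real.norm_eq_abs]; linarith)
  have hper : I1 ((tra F (0, e0))^[N * k] (z, y0) - (z, y0)) := by
    rw [h.iter]
    exact ⟨h.bas_mul hz k, m, by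
      show XO (fib F 0 z) y0 e0 (N * k) - y0 = m
      rw [hy0]; ring⟩
  have key := hS (0, e0) hnorm (N * k) (z, y0) (Nat.mul_pos hN hk) hper
  obtain ⟨hd, hfib⟩ := h.fderiv_fib 0 e0 (N * k) z y0
  set D := fderiv ℝ ((tra F (0, e0))^[N * k]) (z, y0) with hD
  have h1 : HasDerivAt (fun t => XO (fib F 0 z) t e0 (N * k) - t) ((D (0, 1)).2 - 1) y0 :=
    hd.sub (hasDerivAt_id y0)
  have h2 : (D (0, 1)).2 - 1 = 0 := by
    rcases hext with h3 | h3
    · have hmax : IsLocalMax (fun t => XO (fib F 0 z) t e0 (N * k) - t) y0 := by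
        refine Filter.Eventually.of_forall fun t => ?_
        show XO (fib F 0 z) t e0 (N * k) - t ≤ XO (fib F 0 z) y0 e0 (N * k) - y0
        rw [hy0]
        linarith [h3 t]
      exact hmax.hasDerivAt_eq_zero h1
    · have hmin : IsLocalMin (fun t => XO (fib F 0 z) t e0 (N * k) - t) y0 := by
        refine Filter.Eventually.of_forall fun t => ?_
        show XO (fib F 0 z) y0 e0 (N * k) - y0 ≤ XO (fib F 0 z) t e0 (N * k) - t
        rw [hy0]
        linarith [h3 t]
      exact hmin.hasDerivAt_eq_zero h1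
  have h3 : (D (0, 1)).2 = 1 := by linarith
  rw [h3] at hfib
  have h4 := congrArg Prod.snd (key (0, 1) hfib)
  exact one_ne_zero h4

/-- the periodic points in the fibres are simple -/
theorem Skew.simple (h : Skew F) (hS : StarL I1 F) {z : Fin d → ℝ} {N : ℕ} (hN : 0 < N)
    (hz : IsI ((tra (bas F) 0)^[N] z - z)) (m : ℤ) (y : ℝ) (hy : XO (fib F 0 z) y 0 N = y + m) :
    deriv (fun t => XO (fib F 0 z) t 0 N) y ≠ 1 := by
  obtain ⟨δ, hδ, hS⟩ := hS
  intro h1
  have hnorm : ‖((0 : Fin d → ℝ), (0 : ℝ))‖ < δ := by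
    rw [Prod.norm_def]
    simpa using hδ
  have hper : I1 ((tra F (0, 0))^[N] (z, y) - (z, y)) := by
    rw [h.iter]
    exact ⟨hz, m, by
      show XO (fib F 0 z) y 0 N - y = m
      rw [hy]; ring⟩
  have key := hS (0, 0) hnorm N (z, y) hN hper
  obtain ⟨hd, hfib⟩ := h.fderiv_fib 0 0 N z y
  rw [hd.deriv] at h1
  rw [h1] at hfib
  have h4 := congrArg Prod.snd (key (0, 1) hfib)
  exact one_ne_zero h4

end Q263.IC
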