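import Mathlib
import Pool.Agent.Q263.IC.Sk
import Pool.Agent.H637R2.TD.Main

/-! Flag preserving diffeomorphisms of the torus with the star property are hyperbolic. -/

set_option autoImplicit false

open Set Filter Topology Pool.Agent.H922R3.CL Pool.Agent.H728R2.OS Pool.Agent.H637R2.TD
open Pool.Agent.Q192.FT (IsI tor_eq_iff)
open Pool.Agent.H637R2.TD.SplitAux

namespace Q263.IC

/-- the star property of a homeomorphism of the torus -/
def Star {d : ℕ} (f : Torus d ≃ₜ Torus d) : Prop :=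
  ∃ G : (Fin d → ℝ) → (Fin d → ℝ), ContDiff ℝ 1 G ∧ IsLift toTorus G f ∧ StarL IsI G

variable {d : ℕ}

theorem circ_eq_iff (a b : ℝ) : (a : UnitAddCircle) = (b : UnitAddCircle) ↔ ∃ n : ℤ, b - a = n := by
  constructor
  · intro h
    obtain ⟨n, hn⟩ := exists_int h.symm
    exact ⟨n, by rw [hn]; ring⟩
  · rintro ⟨n, hn⟩
    have : b = a + n := by linarith
    rw [this, coe_add_int]

theorem tor1_eq_iff (p q : (Fin d → ℝ) × ℝ) : toTorus1 p = toTorus1 q ↔ I1 (q - p) := by
  unfold I1 toTorus1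
  rw [Prod.mk.injEq, tor_eq_iff, circ_eq_iff]
  rfl

theorem tor1_add (p k : (Fin d → ℝ) × ℝ) (hk : I1 k) : toTorus1 (p + k) = toTorus1 p := by
  symm
  rw [tor1_eq_iff, add_sub_cancel_left]
  exact hk

theorem isI_iter {G : (Fin d → ℝ) → (Fin d → ℝ)} {f : Torus d ≃ₜ Torus d}
    (hl : IsLift toTorus G f) (n : ℕ) (z : Fin d → ℝ) :
    toTorus ((tra G 0)^[n] z) = f^[n] (toTorus z) := by
  induction n with
  | zero => rfl
  | succ n ih =>
    rw [Function.iterate_succ_apply', Function.iterate_succ_apply', ← ih, ← hl]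
    show toTorus (G _ + 0) = _
    rw [add_zero]

theorem L_isI (z : Fin (d + 1) → ℝ) : IsI z ↔ I1 (L d z) := by
  constructor
  · intro h
    exact ⟨fun i => h i.succ, h 0⟩
  · rintro ⟨h1, h2⟩ i
    refine Fin.cases ?_ (fun j => ?_) i
    · exact h2
    · exact h1 j

theorem starL_conj {G : (Fin (d + 1) → ℝ) → (Fin (d + 1) → ℝ)} (h : StarL IsI G) :
    StarL I1 (fun z => L d (G ((L d).symm z))) := by
  obtain ⟨δ, hδ, h⟩ := h
  refine ⟨δ, hδ, fun w hw N z hN hz v hv => ?_⟩
  set F : (Fin d → ℝ) × ℝ → (Fin d → ℝ) × ℝ := fun z => L d (G ((L d).symm z)) with hF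
  have h1 : tra G ((L d).symm w) = fun z => (L d).symm (tra F w (L d z)) := by
    funext z
    show G z + (L d).symm w = (L d).symm (L d (G ((L d).symm (L d z))) + w)
    rw [map_add, LinearIsometryEquiv.symm_apply_apply, LinearIsometryEquiv.symm_apply_apply]
  have h2 : (tra G ((L d).symm w))^[N] = fun z => (L d).symm ((tra F w)^[N] (L d z)) := by
    rw [h1]
    exact iter_conj (tra F w) N
  have h3 := h ((L d).symm w) (by rw [LinearIsometryEquiv.norm_map]; exact hw) N ((L d).symm z) hN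
    (by
      rw [L_isI, h2]
      show I1 (L d ((L d).symm ((tra F w)^[N] (L d ((L d).symm z))) - (L d).symm z))
      rw [map_sub, LinearIsometryEquiv.apply_symm_apply, LinearIsometryEquiv.apply_symm_apply]
      exact hz) ((L d).symm v) (by
        rw [h2, fderiv_conj, LinearIsometryEquiv.apply_symm_apply,
          LinearIsometryEquiv.apply_symm_apply, hv])
  rw [LinearIsometryEquiv.map_eq_zero_iff] at h3
  exact h3

theorem skew_of {r : ℕ∞} (hr : 1 ≤ r) {f : Torus (d + 1) ≃ₜ Torus (d + 1)} (hf : IsFlagDiffeo r f)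
    {T : Torus d ≃ₜ Torus d} (hT' : ∀ z, (conjSplit f z).1 = T z.1)
    {F : (Fin d → ℝ) × ℝ → (Fin d → ℝ) × ℝ} (hF : ContDiff ℝ 1 F)
    (lF : IsLift toTorus1 F (conjSplit f)) : Skew F := by
  obtain ⟨F0, hF0, lF0, mF0⟩ := exists_lift f hf
  have hF0' : ContDiff ℝ 1 F0 := hF0.of_le (by exact_mod_cast hr)
  obtain ⟨c, hc⟩ := lift_unique (isCov_toTorus1 d) hF0.continuous hF.continuous
    (fun z => (lF0 z).trans (lF z).symm)
  have hper : ∀ k, I1 k → ∃ c, I1 c ∧ ∀ p, F (p + k) = F p + c := by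
    intro k hk
    obtain ⟨c', hc'⟩ := lift_unique (isCov_toTorus1 d) hF.continuous
      (hF.continuous.comp (continuous_add_const k))
      (fun z => by
        show toTorus1 (F z) = toTorus1 (F (z + k))
        rw [lF, lF, tor1_add z k hk])
    have hc'' : ∀ p, F (p + k) = F p + c' := hc'
    refine ⟨c', ?_, hc''⟩
    have h1 : toTorus1 (F 0) = toTorus1 (F (0 + k)) := by rw [lF, lF, tor1_add 0 k hk]
    rw [hc'' 0, tor1_eq_iff, add_sub_cancel_left] at h1
    exact h1
  have hmono : ∀ z t, 0 < t → (F z).2 < (F (z.1, z.2 + t)).2 := by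
    intro z t ht
    rw [hc, hc, Prod.snd_add, Prod.snd_add]
    exact add_lt_add_left (mF0 z t ht) _
  obtain ⟨S, w, hST, hSf, hSG, -⟩ := exists_fiberSys hr T (conjSplit f)
    (isDiffeo_conjSplit f hf.diffeo) hT' F hF lF hmono
  refine ⟨hF, ?_, ?_, ?_, hper⟩
  · -- the base component
    set F' : (Fin d → ℝ) × ℝ → (Fin d → ℝ) × ℝ := fun p => ((F (p.1, 0)).1, (F p).2) with hF'
    have hF'c : Continuous F' :=
      (continuous_fst.comp (hF.continuous.comp (continuous_fst.prodMk continuous_const))).prodMk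
        (continuous_snd.comp hF.continuous)
    have lF' : ∀ p, toTorus1 (F' p) = toTorus1 (F p) := by
      intro p
      have h1 : toTorus (F (p.1, 0)).1 = toTorus (F p).1 := by
        have e1 : toTorus (F (p.1, 0)).1 = (conjSplit f (toTorus1 (p.1, 0))).1 :=
          congrArg Prod.fst (lF (p.1, 0))
        have e2 : toTorus (F p).1 = (conjSplit f (toTorus1 p)).1 := congrArg Prod.fst (lF p)
        rw [e1, e2, hT', hT']
        rfl
      exact Prod.ext h1 rfl
    obtain ⟨c', hc'⟩ := lift_unique (isCov_toTorus1 d) hF'c hF.continuous lF'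
    have h0 : c'.1 = 0 := by
      have h1 := congrArg Prod.fst (hc' (0, 0))
      have h2 : (F (0, 0)).1 = (F (0, 0)).1 + c'.1 := h1
      exact left_eq_add.1 h2
    intro z y
    have h1 := congrArg Prod.fst (hc' (z, y))
    have h2 : (F (z, y)).1 = (F (z, 0)).1 + c'.1 := h1
    rw [h2, h0, add_zero]
  · intro z a b hab
    have h1 := hmono (z, a) (b - a) (by linarith)
    have e : ((z, a) : (Fin d → ℝ) × ℝ).2 + (b - a) = b := by
      show a + (b - a) = b
      ring
    rw [e] at h1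
    exact h1
  · obtain ⟨c', -, hc'⟩ := hper (0, 1) ⟨isI_zero, 1, by simp⟩
    have h1 : ∀ p : (Fin d → ℝ) × ℝ, (F (p.1, p.2 + 1)).2 = (F p).2 + c'.2 := by
      intro p
      have h2 := congrArg Prod.snd (hc' p)
      have e : p + ((0 : Fin d → ℝ), (1 : ℝ)) = (p.1, p.2 + 1) := by
        refine Prod.ext ?_ rfl
        exact add_zero _
      rw [e] at h2
      exact h2
    have h3 : c'.2 = 1 := by
      have h4 := S.deg (toTorus 0) 0
      rw [hSG, hSG, h1 (rep (toTorus 0), 0)] at h4
      linarith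
    intro z y
    have h5 := h1 (z, y)
    rw [h3] at h5
    exact h5

/-- the two forms of the iterates of the fibre maps -/
theorem it_eq {F : (Fin d → ℝ) × ℝ → (Fin d → ℝ) × ℝ} (h : Skew F) (S : FiberSys (Torus d))
    {T : Torus d ≃ₜ Torus d} (hST : S.T = T) (hSG : ∀ x y, S.G x y = (F (rep x, y)).2)
    (lB : IsLift toTorus (bas F) T) (x : Torus d) (n : ℕ) :
    ∃ j : ℤ, ∀ y, S.it x n y = XO (fib F 0 (rep x)) y 0 n + j := by
  induction n with
  | zero => exact ⟨0, fun y => by simp [FiberSys.it, XO]⟩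
  | succ n ih =>
    obtain ⟨j, hj⟩ := ih
    have hK : IsI (rep (T^[n] x) - (tra (bas F) 0)^[n] (rep x)) := by
      rw [← tor_eq_iff, isI_iter lB, toTorus_rep, toTorus_rep]
    obtain ⟨c, hc, h1⟩ := h.per (rep (T^[n] x) - (tra (bas F) 0)^[n] (rep x), (j : ℝ)) ⟨hK, j, rfl⟩
    obtain ⟨m, hm⟩ := hc.2
    refine ⟨m, fun y => ?_⟩
    rw [S.it_succ, hSG, hST, hj]
    have h2 := h1 ((tra (bas F) 0)^[n] (rep x), XO (fib F 0 (rep x)) y 0 n)
    rw [Prod.mk_add_mk, add_sub_cancel] at h2
    rw [h2, Prod.snd_add, hm]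
    show fib F 0 (rep x) n (XO (fib F 0 (rep x)) y 0 n) + (m : ℝ) =
      fib F 0 (rep x) n (XO (fib F 0 (rep x)) y 0 n) + 0 + m
    rw [add_zero]

/-- **Flag preserving diffeomorphisms with the star property are hyperbolic.** -/
theorem star_main {r : ℕ∞} (hr : 1 ≤ r) : ∀ (d : ℕ) (f : Torus d ≃ₜ Torus d), IsFlagDiffeo r f →
    Star f → Conv f ∧ IsHyperbolic toTorus f (Per f) := by
  intro d
  induction d with
  | zero => intro f _ _; exact ⟨conv_zero f, hyp_zero f _⟩
  | succ d ih =>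
    intro f hf hS
    obtain ⟨G, hG, lG, hS⟩ := hS
    obtain ⟨T, hTf, hT⟩ := exists_base f hf
    have hT' : ∀ z, (conjSplit f z).1 = T z.1 := by
      intro z
      obtain ⟨x, rfl⟩ := (split d).surjective z
      rw [conjSplit_apply]
      exact hT x
    set F : (Fin d → ℝ) × ℝ → (Fin d → ℝ) × ℝ := fun z => L d (G ((L d).symm z)) with hFdef
    have hF : ContDiff ℝ 1 F := (L d).contDiff.comp (hG.comp (L d).symm.contDiff)
    have lF : IsLift toTorus1 F (conjSplit f) := lift_conj lG
    have hSF : StarL I1 F := starL_conj hS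
    have hsk : Skew F := skew_of hr hf hT' hF lF
    have lB : IsLift toTorus (bas F) T := by
      intro z
      have h1 : toTorus (F (z, 0)).1 = (conjSplit f (toTorus1 (z, 0))).1 :=
        congrArg Prod.fst (lF (z, 0))
      rw [hT'] at h1
      exact h1
    obtain ⟨hTc, hTh⟩ := ih T hTf ⟨bas F, hsk.bas_smooth, lB, hsk.star_base hSF⟩
    have mF : ∀ z t, 0 < t → (F z).2 < (F (z.1, z.2 + t)).2 := by
      intro z t ht
      exact hsk.mono z.1 (by linarith : z.2 < z.2 + t)
    obtain ⟨S, w, hST, hSf, hSG, hw0, hSd, hSw, hw⟩ := exists_fiberSys hr T (conjSplit f)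
      (isDiffeo_conjSplit f hf.diffeo) hT' F hF lF mF
    refine step_of_simple hr f hf T hT' hTc hTh S w hST hSf hw0 hSd hSw hw ?_
    intro x n hn hx
    have hz : IsI ((tra (bas F) 0)^[n] (rep x) - rep x) := by
      rw [← tor_eq_iff, isI_iter lB, toTorus_rep, hx]
    obtain ⟨k, m, y, hk, hy⟩ := hsk.exists_per hSF hn hz
    obtain ⟨j, hj⟩ := it_eq hsk S hST hSG lB x (n * k)
    have hNk : 0 < n * k := Nat.mul_pos hn hk
    have hTN : T^[n * k] x = x := by
      rw [Function.iterate_mul]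
      exact Function.iterate_fixed hx k
    have hzk : IsI ((tra (bas F) 0)^[n * k] (rep x) - rep x) := hsk.bas_mul hz k
    refine ⟨n * k, m + j, hNk, hTN, ⟨y, ?_⟩, fun t ht => ?_⟩
    · rw [hj, hy]
      push_cast
      ring
    · have h1 : XO (fib F 0 (rep x)) t 0 (n * k) = t + m := by
        rw [hj] at ht
        push_cast at ht
        linarith
      have h2 := hsk.simple hSF hNk hzk m t h1
      have h3 : S.it x (n * k) = fun t => XO (fib F 0 (rep x)) t 0 (n * k) + j := funext hj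
      rw [h3, deriv_add_const]
      exact h2

end Q263.IC
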