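import Mathlib
import Pool.Agent.Q263.IC.Def
import Pool.Agent.Q263.IC.Star
import Pool.Agent.Q263.HS.Stab
import Pool.Agent.Q192.FT.Hyp
import Pool.Agent.Y504.CO.Plug

/-! Invariant tori of stable diffeomorphisms: the star property of the return map. -/

set_option autoImplicit false
set_option linter.unusedSectionVars false

open scoped Manifold ContDiff Topology
open Set Filter Pool.Agent.H718R2.G Pool.Agent.H728R2.OS Pool.Agent.H637R2.TD
open Pool.Agent.Q192.FT (IsI tor_eq_iff emb em pr qq em_apply pr_em em_pr_add qq_em cda2 iter1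
  pr_int_iff qq_eq_iff)
open Pool.Agent.Y504.CO (NoBdd HypAt)

universe u

namespace Q263.IC

variable {n d : ℕ} {N : Type u} [TopologicalSpace N] [T2Space N] [CompactSpace N]
  [ChartedSpace (V n) N] [IsManifold (𝓡 n) ∞ N] {r : ℕ∞} {E : V n → N}

theorem isManifold_r (n : ℕ) (N : Type u) [TopologicalSpace N] [ChartedSpace (V n) N]
    [IsManifold (𝓡 n) ∞ N] (r : ℕ∞) : IsManifold (𝓡 n) r N :=
  IsManifold.of_le (n := ∞) (by exact_mod_cast le_top)

theorem Tube.smooth (hE : Tube n d r E) : ContMDiff (𝓡 n) (𝓡 n) r E := by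
  have := isManifold_r n N r
  intro v
  obtain ⟨χ, hχ, hv, h⟩ := hE.chart v
  have h1 : ContMDiffAt (𝓡 n) (𝓡 n) r χ.symm v := contMDiffAt_symm_of_mem_maximalAtlas hχ hv
  refine h1.congr_of_eventuallyEq ?_
  filter_upwards [χ.open_target.mem_nhds hv] with w hw
  exact (h w hw).symm

theorem Tube.add_int (hd : d ≤ n) (hE : Tube n d r E) (v : V n) {k : Fin d → ℝ} (hk : IsI k) :
    E (v + em n d k) = E v := by
  symm
  rw [hE.inj, ← pr_int_iff hd, ← qq_eq_iff, map_add, map_add, pr_em, qq_em, add_zero,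
    add_sub_cancel_left]
  exact ⟨hk, rfl⟩

theorem Tube.core_int (hd : d ≤ n) (hE : Tube n d r E) {x y : Fin d → ℝ} (h : IsI (y - x)) :
    E (emb n d y) = E (emb n d x) := by
  have h1 := hE.add_int hd (em n d x) h
  rw [← map_add, add_sub_cancel] at h1
  exact h1

/-- the core is compact -/
theorem Tube.core_compact (hd : d ≤ n) (hE : Tube n d r E) :
    IsCompact (range fun x : Fin d → ℝ => E (emb n d x)) := by
  have hc : Continuous fun x : Fin d → ℝ => E (emb n d x) :=
    hE.smooth.continuous.comp (em n d).continuous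
  have e : (range fun x : Fin d → ℝ => E (emb n d x)) =
      (fun x : Fin d → ℝ => E (emb n d x)) '' Icc 0 1 := by
    apply subset_antisymm
    · rintro _ ⟨x, rfl⟩
      refine ⟨fun i => Int.fract (x i), ⟨fun i => Int.fract_nonneg _,
        fun i => (Int.fract_lt_one _).le⟩, ?_⟩
      refine hE.core_int hd fun i => ⟨-⌊x i⌋, ?_⟩
      show Int.fract (x i) - x i = _
      rw [Int.fract]
      push_cast
      ring
    · rintro _ ⟨x, -, rfl⟩
      exact ⟨x, rfl⟩
  rw [e]
  exact isCompact_Icc.image hc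

/-- In the chart `ψ` the directions of the core at a periodic point have no eigenvalue `1`. -/
theorem core_noOne (hr : 1 ≤ r) (hE : Tube n d r E) {T : N → N}
    (hT : ContMDiff (𝓡 n) (𝓡 n) 1 T) {x₀ : Fin d → ℝ} {A : (Fin d → ℝ) → (Fin d → ℝ)}
    (hA : DifferentiableAt ℝ A x₀) {w : Fin d → ℝ} (hw : IsI w) (hw' : A x₀ = x₀ + w)
    (hd : d ≤ n) (hTA : ∀ x, T (E (emb n d x)) = E (emb n d (A x)))
    {ψ : OpenPartialHomeomorph N (V n)} (hψ : ψ ∈ IsManifold.maximalAtlas (𝓡 n) ∞ N)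
    (hp : E (emb n d x₀) ∈ ψ.source)
    (hB : NoBdd (fun _ => fderiv ℝ (fun v => ψ (T (ψ.symm v))) (ψ (E (emb n d x₀)))))
    (v : Fin d → ℝ) (hv : fderiv ℝ A x₀ v = v) : v = 0 := by
  have := isManifold_r n N r
  have := isManifold_r n N 1
  set p := E (emb n d x₀) with hpdef
  have hTp : T p = p := by
    rw [hpdef, hTA, hw']
    exact hE.core_int hd (by rw [add_sub_cancel_left]; exact hw)
  obtain ⟨χ, hχ, hv₀, hχE⟩ := hE.chart (emb n d x₀)
  have hr' : (1 : WithTop ℕ∞) ≤ r := by exact_mod_cast hr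
  have hp0 : χ.symm (emb n d x₀) = p := hχE _ hv₀
  have hpχ : p ∈ χ.source := by rw [← hp0]; exact χ.map_target hv₀
  have hχp : χ p = emb n d x₀ := by rw [← hp0]; exact χ.right_inv hv₀
  -- the embedding in the chart `ψ`
  set Q : V n → V n := fun v => ψ (E v) with hQ
  have hQd : ContDiffAt ℝ 1 Q (emb n d x₀) := by
    rw [← contMDiffAt_iff_contDiffAt]
    have k1 : ContMDiffAt (𝓡 n) (𝓡 n) 1 E (emb n d x₀) := (hE.smooth _).of_le hr'
    have k2 : ContMDiffAt (𝓡 n) (𝓡 n) 1 ψ (E (emb n d x₀)) :=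
      ((contMDiffOn_of_mem_maximalAtlas hψ _ hp).contMDiffAt
        (ψ.open_source.mem_nhds hp)).of_le (by simp)
    exact k2.comp _ k1
  -- its inverse
  set R : V n → V n := fun v => χ (ψ.symm v) with hR
  have hRd : ContDiffAt ℝ 1 R (ψ p) := by
    rw [← contMDiffAt_iff_contDiffAt]
    have k1 : ContMDiffAt (𝓡 n) (𝓡 n) 1 ψ.symm (ψ p) :=
      ((contMDiffOn_symm_of_mem_maximalAtlas hψ _ (ψ.map_source hp)).contMDiffAt
        (ψ.open_target.mem_nhds (ψ.map_source hp))).of_le (by simp)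
    have k2 : ContMDiffAt (𝓡 n) (𝓡 n) 1 χ (ψ.symm (ψ p)) := by
      rw [ψ.left_inv hp]
      exact (contMDiffAt_of_mem_maximalAtlas hχ hpχ).of_le hr'
    exact k2.comp _ k1
  have hcE : ContinuousAt E (emb n d x₀) := hE.smooth.continuous.continuousAt
  have hRQ : ∀ᶠ v in 𝓝 (emb n d x₀), R (Q v) = v := by
    have h1 : ∀ᶠ v in 𝓝 (emb n d x₀), E v ∈ ψ.source := hcE (ψ.open_source.mem_nhds hp)
    filter_upwards [h1, χ.open_target.mem_nhds hv₀] with v hv1 hv2
    show χ (ψ.symm (ψ (E v))) = v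
    rw [ψ.left_inv hv1, ← hχE v hv2, χ.right_inv hv2]
  have hinj : Function.Injective (fderiv ℝ Q (emb n d x₀)) := by
    have h1 : HasFDerivAt (R ∘ Q) ((fderiv ℝ R (ψ p)) ∘L (fderiv ℝ Q (emb n d x₀))) (emb n d x₀) :=
      ((hRd.differentiableAt (by norm_num)).hasFDerivAt).comp (emb n d x₀)
        (hQd.differentiableAt (by norm_num)).hasFDerivAt
    have h2 : HasFDerivAt (R ∘ Q) (ContinuousLinearMap.id ℝ (V n)) (emb n d x₀) :=
      (hasFDerivAt_id _).congr_of_eventuallyEq (by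
        filter_upwards [hRQ] with v hv
        exact hv)
    have h3 := h1.unique h2
    intro a b hab
    have h4 := congrArg (fun L : V n →L[ℝ] V n => L a) h3
    have h5 := congrArg (fun L : V n →L[ℝ] V n => L b) h3
    simp only [ContinuousLinearMap.comp_apply, ContinuousLinearMap.id_apply] at h4 h5
    rw [← h4, ← h5, hab]
  -- the derivative of the map in the chart `ψ`
  set D := fderiv ℝ (fun v => ψ (T (ψ.symm v))) (ψ p) with hD
  have hDd : HasFDerivAt (fun v => ψ (T (ψ.symm v))) D (ψ p) :=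
    ((cda2 hT hψ hψ hp (by rw [hTp]; exact hp)).differentiableAt (by norm_num)).hasFDerivAt
  set L := fderiv ℝ Q (emb n d x₀) with hL
  have hQL : HasFDerivAt Q L (emb n d x₀) := (hQd.differentiableAt (by norm_num)).hasFDerivAt
  set P : (Fin d → ℝ) → V n := fun x => Q (em n d x) with hP
  have hPL : HasFDerivAt P (L ∘L em n d) x₀ :=
    HasFDerivAt.comp x₀ (g := Q) (by exact hQL) (em n d).hasFDerivAt
  have h1 : HasFDerivAt ((fun v => ψ (T (ψ.symm v))) ∘ P) (D ∘L (L ∘L em n d)) x₀ :=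
    HasFDerivAt.comp x₀ (by exact hDd) hPL
  have h2 : HasFDerivAt (fun x => P (A x - w)) ((L ∘L em n d) ∘L (fderiv ℝ A x₀)) x₀ := by
    have h3 : HasFDerivAt (fun x => A x - w) (fderiv ℝ A x₀) x₀ := hA.hasFDerivAt.sub_const w
    have h4 : HasFDerivAt P (L ∘L em n d) (A x₀ - w) := by
      rw [hw', add_sub_cancel_right]
      exact hPL
    exact HasFDerivAt.comp x₀ h4 h3
  have h3 : ((fun v => ψ (T (ψ.symm v))) ∘ P) =ᶠ[𝓝 x₀] fun x => P (A x - w) := by
    have h4 : ∀ᶠ x in 𝓝 x₀, E (emb n d x) ∈ ψ.source := by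
      have hc : Continuous fun x : Fin d → ℝ => E (emb n d x) :=
        hE.smooth.continuous.comp (em n d).continuous
      exact hc.continuousAt (ψ.open_source.mem_nhds hp)
    filter_upwards [h4] with x hx
    show ψ (T (ψ.symm (ψ (E (emb n d x))))) = ψ (E (emb n d (A x - w)))
    rw [ψ.left_inv hx, hTA]
    congr 1
    refine hE.core_int hd ?_
    rw [sub_sub_cancel]
    exact hw
  have h4 := h1.unique (h2.congr_of_eventuallyEq h3)
  have h5 : D (L (em n d v)) = L (em n d v) := by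
    have h6 := congrArg (fun K : (Fin d → ℝ) →L[ℝ] V n => K v) h4
    simp only [ContinuousLinearMap.comp_apply] at h6
    rw [hv] at h6
    exact h6
  have h6 := hB (fun _ => L (em n d v)) ⟨‖L (em n d v)‖, fun _ => le_rfl⟩ (fun _ => h5.symm) 0
  have h7 : em n d v = 0 := hinj (by rw [h6, map_zero])
  have h8 := pr_em (n := n) hd v
  rw [h7, map_zero] at h8
  exact h8.symm

variable {F : DiffM n N r} {m : ℕ} {f : Torus d ≃ₜ Torus d}

/-- the images of the core off the core -/
def others (F : N → N) (n d m : ℕ) (E : V n → N) : Set N :=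
  ⋃ i ∈ Finset.Ioo 0 m, F^[i] '' range fun x : Fin d → ℝ => E (emb n d x)

theorem others_closed (hE : TorusCycle n r F d m E f) : IsClosed (others F n d m E) := by
  refine isClosed_biUnion_finset fun i _ => ?_
  exact ((hE.toTube.core_compact hE.le).image (F.continuous.iterate i)).isClosed

theorem others_core (hE : TorusCycle n r F d m E f) (x : Fin d → ℝ) :
    E (emb n d x) ∉ others F n d m E := by
  intro h
  unfold others at h
  rw [mem_iUnion₂] at h
  obtain ⟨i, hi, y, ⟨z, rfl⟩, hy⟩ := h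
  rw [Finset.mem_Ioo] at hi
  exact hE.dis i hi.1 hi.2 z x hy

theorem fam_core (hE : TorusCycle n r F d m E f) {Φ : (Fin d → ℝ) → N → N}
    (hΦ : Q263.HS.IsAction (V n) r Φ)
    (hΦE : ∀ u x, Φ u (E (emb n d x)) = E (emb n d (x + u)))
    (hΦK : ∀ u, ∀ y ∈ others F n d m E, Φ u y = y) {A : (Fin d → ℝ) → (Fin d → ℝ)}
    (hA : IsLift toTorus A f) (u : Fin d → ℝ) (x : Fin d → ℝ) :
    (Q263.HS.fam hΦ F u)^[m] (E (emb n d x)) = E (emb n d (tra A u x)) := by
  have h1 : ∀ i < m, (Q263.HS.fam hΦ F u)^[i] (E (emb n d x)) = F^[i] (E (emb n d x)) := by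
    intro i
    induction i with
    | zero => intro _; rfl
    | succ i ih =>
      intro hi
      rw [Function.iterate_succ_apply', ih (by omega), Q263.HS.fam_apply,
        ← Function.iterate_succ_apply' F]
      refine hΦK u _ ?_
      unfold others
      rw [mem_iUnion₂]
      exact ⟨i + 1, Finset.mem_Ioo.2 ⟨Nat.succ_pos i, hi⟩, _, ⟨x, rfl⟩, rfl⟩
  obtain ⟨k, rfl⟩ : ∃ k, m = k + 1 := ⟨m - 1, (Nat.sub_add_cancel hE.pos).symm⟩
  rw [Function.iterate_succ_apply', h1 k (Nat.lt_succ_self k), Q263.HS.fam_apply,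
    ← Function.iterate_succ_apply' F, hE.dyn x (A x) (hA x), hΦE]
  rfl

theorem core_iter {G : N → N} {B : (Fin d → ℝ) → (Fin d → ℝ)}
    (h : ∀ x, G^[m] (E (emb n d x)) = E (emb n d (B x))) (k : ℕ) (x : Fin d → ℝ) :
    G^[m * k] (E (emb n d x)) = E (emb n d (B^[k] x)) := by
  induction k with
  | zero => rfl
  | succ k ih =>
    rw [Nat.mul_succ, add_comm, Function.iterate_add_apply, ih, h, Function.iterate_succ_apply']

/-- **The return map of an invariant torus of an `Ω`-stable diffeomorphism has the star property.** -/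
theorem star_of_stable (hACT : S_ACT.{u}) (hr : 1 ≤ r)
    (hF : Pool.Agent.TH80.OMS.OmegaStable n N r F) (hE : TorusCycle n r F d m E f)
    (hf : IsDiffeo toTorus r f) : Star f := by
  obtain ⟨⟨A, hA, lA⟩, -⟩ := hf
  obtain ⟨U, hU, hFU, -, hhyp⟩ := Pool.Agent.Y504.CO.stable_hyp Pool.Agent.Y504.CO.Plug.hF2 hr hF
  obtain ⟨Φ, hΦ, hΦE, hΦK⟩ := hACT n d N r hr hE.le E hE.toTube _ (others_closed hE)
    (others_core hE)
  have hr' : (1 : WithTop ℕ∞) ≤ r := by exact_mod_cast hr
  have hA1 : ContDiff ℝ 1 A := hA.of_le hr'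
  obtain ⟨κ, hκ, hmem⟩ := Pool.Agent.TH80.CLX.fam_mem r hr (Q263.HS.fam hΦ F)
    (Q263.HS.isFam_fam hΦ F) (E 0) U hU (by
      have : Q263.HS.fam hΦ F 0 = F := by
        ext x
        exact hΦ.zero _
      rw [this]
      exact hFU)
  refine ⟨A, hA1, lA, κ, hκ, fun u hu k z hk hz v hv => ?_⟩
  set G := Q263.HS.fam hΦ F u with hG
  have hGU : G ∈ U := hmem u hu
  have hit := core_iter (m := m) (G := G) (E := E) (n := n) (d := d)
    (fam_core hE hΦ hΦE hΦK lA u) k
  have hdiff : Differentiable ℝ ((tra A u)^[k]) := by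
    have h1 : Differentiable ℝ (tra A u) := (hA1.differentiable one_ne_zero).add_const u
    exact h1.iterate k
  have hpz : G^[m * k] (E (emb n d z)) = E (emb n d z) := by
    rw [hit]
    exact hE.toTube.core_int hE.le hz
  have hmk : 1 ≤ m * k := Nat.mul_pos hE.pos hk
  have hper : E (emb n d z) ∈ Pool.Agent.TH80.OMS.Per G := ⟨m * k, hmk, hpz⟩
  have hH := hhyp G hGU _ hper (m * k) hmk hpz (chartAt (V n) (E (emb n d z)))
    (IsManifold.chart_mem_maximalAtlas _) (mem_chart_source _ _)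
  exact core_noOne hr hE.toTube (iter1 hr G (m * k)) (hdiff z) hz (by abel) hE.le hit
    (IsManifold.chart_mem_maximalAtlas _) (mem_chart_source _ _) hH v hv

end Q263.IC
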