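import Mathlib
import Pool.Agent.Q263.IC.Def
import Pool.Agent.Q263.IC.Star
import Pool.Agent.Q192.FT.Chn

/-! Diffeomorphisms of the circle and flag preserving diffeomorphisms with the star property. -/

set_option autoImplicit false

open Set Filter Topology Pool.Agent.H922R3.CL Pool.Agent.H728R2.OS Pool.Agent.H637R2.TD
open Pool.Agent.Q192.FT (IsI tor_eq_iff)
open Pool.Agent.H637R2.TD.SplitAux

namespace Q263.IC

variable {d : ℕ}

/-- `Conv` gives finitely many periodic points, at least one, and no other chain recurrent points -/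
theorem of_conv {f : Torus d ≃ₜ Torus d} (h : Conv f) :
    (Per f).Finite ∧ (Per f).Nonempty ∧ ChainRec f ⊆ Per f := by
  refine ⟨h.1, ?_, chainRec_of_conv f h⟩
  obtain ⟨p, n, hn, hp, -⟩ := h.2 (fun k => f^[k] 0) (by
    have : (fun n => dist (f (f^[n] 0)) (f^[n + 1] 0)) = fun _ => (0 : ℝ) := by
      funext n
      rw [Function.iterate_succ_apply', dist_self]
    rw [this]
    exact tendsto_const_nhds)
  exact ⟨p, n, hn, hp⟩

/-- circle diffeomorphisms: no eigenvalue one and a periodic point -/
theorem circle_conv {r : ℕ∞} (hr : 1 ≤ r) (f : Torus 1 ≃ₜ Torus 1) (hf : IsFlagDiffeo r f)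
    {G : (Fin 1 → ℝ) → (Fin 1 → ℝ)} (hG : ContDiff ℝ 1 G) (lG : IsLift toTorus G f)
    (h1 : ∀ N z, 0 < N → IsI (G^[N] z - z) → ∀ v, fderiv ℝ (G^[N]) z v = v → v = 0)
    (hper : ∃ z, IsI (G z - z)) : Conv f := by
  obtain ⟨T, hTf, hT⟩ := exists_base (d := 0) f hf
  have hT' : ∀ z, (conjSplit f z).1 = T z.1 := fun z => Subsingleton.elim _ _
  set F : (Fin 0 → ℝ) × ℝ → (Fin 0 → ℝ) × ℝ := fun z => L 0 (G ((L 0).symm z)) with hFdef
  have hF : ContDiff ℝ 1 F := (L 0).contDiff.comp (hG.comp (L 0).symm.contDiff)
  have lF : IsLift toTorus1 F (conjSplit f) := lift_conj lG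
  have hsk : Skew F := skew_of hr hf hT' hF lF
  have lB : IsLift toTorus (bas F) T := fun z => Subsingleton.elim _ _
  have mF : ∀ z t, 0 < t → (F z).2 < (F (z.1, z.2 + t)).2 := by
    intro z t ht
    exact hsk.mono z.1 (by linarith : z.2 < z.2 + t)
  have hT0 : tra F (0, (0 : ℝ)) = F := by
    funext p
    show F p + 0 = F p
    rw [add_zero]
  have hFG : ∀ N, (G^[N]) = fun z => (L 0).symm (F^[N] (L 0 z)) := by
    intro N
    rw [← iter_conj F N]
    congr 1
    funext z
    show G z = (L 0).symm (L 0 (G ((L 0).symm (L 0 z))))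
    rw [LinearIsometryEquiv.symm_apply_apply, LinearIsometryEquiv.symm_apply_apply]
  -- no eigenvalue one
  have hno : ∀ N (z : (Fin 0 → ℝ) × ℝ), 0 < N → I1 (F^[N] z - z) →
      ∀ v, fderiv ℝ (F^[N]) z v = v → v = 0 := by
    intro N z hN hz v hv
    have h2 := h1 N ((L 0).symm z) hN (by
      rw [L_isI, hFG]
      show I1 (L 0 ((L 0).symm (F^[N] (L 0 ((L 0).symm z))) - (L 0).symm z))
      rw [map_sub, LinearIsometryEquiv.apply_symm_apply, LinearIsometryEquiv.apply_symm_apply]
      exact hz) ((L 0).symm v) (by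
        rw [hFG, fderiv_conj, LinearIsometryEquiv.apply_symm_apply,
          LinearIsometryEquiv.apply_symm_apply, hv])
    rw [LinearIsometryEquiv.map_eq_zero_iff] at h2
    exact h2
  obtain ⟨S, w, hST, hSf, hSG, hw0, hSd, hSw, hw⟩ := exists_fiberSys hr T (conjSplit f)
    (isDiffeo_conjSplit f hf.diffeo) hT' F hF lF mF
  refine (step_of_simple hr f hf T hT' (conv_zero T) (hyp_zero T _) S w hST hSf hw0 hSd hSw hw
    ?_).1
  intro x n hn hx
  obtain ⟨z0, hz0⟩ := hper
  obtain ⟨j, hj⟩ := it_eq hsk S hST hSG lB x 1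
  obtain ⟨-, m, hm⟩ := (L_isI _).1 hz0
  have hb : ∀ (N : ℕ) (z : Fin 0 → ℝ), IsI ((tra (bas F) 0)^[N] z - z) := fun N z i => i.elim0
  have hX : ∀ (N : ℕ) (y : ℝ), (F^[N] (rep x, y)).2 = XO (fib F 0 (rep x)) y 0 N := by
    intro N y
    have := congrArg Prod.snd (hsk.iter 0 0 (rep x) y N)
    rw [hT0] at this
    exact this
  refine ⟨1, m + j, one_pos, by rw [Function.iterate_one]; exact Subsingleton.elim _ _,
    ⟨z0 0, ?_⟩, fun t ht => ?_⟩
  · rw [hj, ← hX, Function.iterate_one]
    have e1 : ((rep x, z0 0) : (Fin 0 → ℝ) × ℝ) = L 0 z0 :=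
      Prod.ext (Subsingleton.elim _ _) rfl
    have e2 : (F (L 0 z0)).2 = (L 0 (G z0)).2 := by
      rw [hFdef]
      show (L 0 (G ((L 0).symm (L 0 z0)))).2 = _
      rw [LinearIsometryEquiv.symm_apply_apply]
    rw [e1, e2]
    have e3 : (L 0 (G z0 - z0)).2 = (L 0 (G z0)).2 - z0 0 := by
      rw [map_sub]
      rfl
    rw [e3] at hm
    push_cast
    linarith
  · have h2 : XO (fib F 0 (rep x)) t 0 1 = t + m := by
      rw [hj] at ht
      push_cast at ht
      linarith
    have h3 : S.it x 1 = fun t => XO (fib F 0 (rep x)) t 0 1 + j := funext hj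
    rw [h3, deriv_add_const]
    intro h4
    obtain ⟨hd, hfib⟩ := hsk.fderiv_fib 0 0 1 (rep x) t
    rw [hd.deriv] at h4
    rw [h4, hT0] at hfib
    have h5 := hno 1 (rep x, t) one_pos ⟨fun i => i.elim0, m, by
      show (F^[1] (rep x, t)).2 - t = m
      rw [hX, h2]; ring⟩ (0, 1) hfib
    exact one_ne_zero (congrArg Prod.snd h5)

theorem fin1 (z : Fin 1 → ℝ) : z = fun _ => z 0 := by
  funext i
  rw [Subsingleton.elim i 0]

/-- the return map of a torus: finitely many periodic points, no other chain recurrent points -/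
theorem morse_of_star {r : ℕ∞} (hr : 1 ≤ r) {f : Torus d ≃ₜ Torus d} (hf : Adm r f) (hS : Star f) :
    (Per f).Finite ∧ (Per f).Nonempty ∧ ChainRec f ⊆ Per f := by
  by_cases hfl : IsFlagDiffeo r f
  · exact of_conv (star_main hr d f hfl hS).1
  obtain ⟨hD, hd⟩ := hf
  obtain rfl : d = 1 := hd.resolve_right hfl
  obtain ⟨A, hA, lA, δ, hδ, hst⟩ := hS
  obtain ⟨⟨A', hA', lA'⟩, B, hB, lB⟩ := id hD
  -- the lift is monotone or antitone
  set a : ℝ → ℝ := fun x => A (fun _ => x) 0 with ha
  have hac : Continuous a := (continuous_apply 0).comp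
    (hA.continuous.comp (continuous_pi fun _ => continuous_id))
  have hAinj : Function.Injective A := by
    obtain ⟨c, hc⟩ := lift_unique (isCov_toTorus 1) continuous_id (hB.continuous.comp hA.continuous)
      (fun z => by
        show toTorus z = toTorus (B (A z))
        rw [lB, lA, Homeomorph.symm_apply_apply])
    intro x y hxy
    have h1 := hc x
    have h2 := hc y
    simp only [Function.comp, id] at h1 h2
    rw [hxy, h2] at h1
    exact (add_right_cancel h1).symm
  have hainj : Function.Injective a := by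
    intro x y hxy
    have h1 : A (fun _ => x) = A (fun _ => y) := by
      rw [fin1 (A fun _ => x), fin1 (A fun _ => y)]
      funext _
      exact hxy
    exact congrFun (hAinj h1) 0
  have hper : ∀ k : Fin 1 → ℝ, IsI k → ∃ c, IsI c ∧ ∀ y, A (y + k) = A y + c := fun k hk =>
    Pool.Agent.Q192.FT.lift_add hA.continuous lA hk
  rcases hac.strictMono_of_inj hainj with hm | hm
  · exfalso
    apply hfl
    refine ⟨hD, fun k x y => ?_, A, hA.continuous, lA, fun z k t ht => ?_⟩
    · have e : ∀ u v : Torus 1, (∀ j, k ≤ j → u j = v j) ↔ u = v := by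
        intro u v
        constructor
        · intro h
          funext j
          exact h j (by rw [Subsingleton.elim k j])
        · intro h j _
          rw [h]
      rw [e, e]
      exact f.injective.eq_iff.symm
    · have hk : k = 0 := Subsingleton.elim _ _
      subst hk
      have h1 := hm (show z 0 < z 0 + t by linarith)
      have e1 : A z 0 = a (z 0) := by rw [ha]; exact congrArg (fun w => A w 0) (fin1 z)
      have e2 : A (z + Pi.single 0 t) 0 = a (z 0 + t) := by
        rw [ha]
        refine congrArg (fun w => A w 0) ?_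
        funext i
        rw [Subsingleton.elim i 0]
        simp
      rw [e1, e2]
      exact h1
  · -- orientation reversing
    set g : Torus 1 ≃ₜ Torus 1 := f.trans f with hg
    have lAA : IsLift toTorus (A ∘ A) g := fun z => by
      show toTorus (A (A z)) = f (f (toTorus z))
      rw [lA, lA]
    have hgf : IsFlagDiffeo r g := by
      refine ⟨⟨⟨A' ∘ A', hA'.comp hA', fun z => ?_⟩, B ∘ B, hB.comp hB, fun z => ?_⟩,
        fun k x y => ?_, A ∘ A, hA.continuous.comp hA.continuous, lAA, fun z k t ht => ?_⟩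
      · show toTorus (A' (A' z)) = f (f (toTorus z))
        rw [lA', lA']
      · show toTorus (B (B z)) = f.symm (f.symm (toTorus z))
        rw [lB, lB]
      · have e : ∀ u v : Torus 1, (∀ j, k ≤ j → u j = v j) ↔ u = v := by
          intro u v
          constructor
          · intro h
            funext j
            exact h j (by rw [Subsingleton.elim k j])
          · intro h j _
            rw [h]
        rw [e, e]
        exact g.injective.eq_iff.symm
      · have hk : k = 0 := Subsingleton.elim _ _
        subst hk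
        have h1 := hm (show z 0 < z 0 + t by linarith)
        have h2 := hm h1
        have e0 : ∀ w : Fin 1 → ℝ, (A ∘ A) w 0 = a (a (w 0)) := by
          intro w
          show A (A w) 0 = A (fun _ => A (fun _ => w 0) 0) 0
          rw [← fin1 (A fun _ => w 0), ← fin1 w]
        rw [e0, e0]
        have e2 : (z + (Pi.single 0 t : Fin 1 → ℝ)) 0 = z 0 + t := by simp
        rw [e2]
        exact h2
    -- a fixed point
    have hfix : ∃ x, a x = x := by
      obtain ⟨c, hc, hcp⟩ := hper (fun _ => 1) (fun _ => ⟨1, by simp⟩)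
      obtain ⟨m, hm'⟩ := hc 0
      have hstep : ∀ x, a (x + 1) = a x + m := by
        intro x
        have h1 := congrFun (hcp fun _ => x) 0
        rw [Pi.add_apply, hm'] at h1
        exact h1
      have hmneg : (m : ℝ) < 0 := by
        have h1 := hm (show (0 : ℝ) < 0 + 1 by norm_num)
        rw [hstep] at h1
        linarith
      have hmn : ∀ k : ℕ, a k = a 0 + k * m := by
        intro k
        induction k with
        | zero => simp
        | succ k ih => push_cast; rw [hstep, ih]; ring
      have hmn' : ∀ k : ℕ, a (-k) = a 0 - k * m := by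
        intro k
        induction k with
        | zero => simp
        | succ k ih =>
          have h1 := hstep (-((k + 1 : ℕ) : ℝ))
          have e : -((k + 1 : ℕ) : ℝ) + 1 = -(k : ℝ) := by push_cast; ring
          rw [e, ih] at h1
          push_cast at h1 ⊢
          linarith
      obtain ⟨k, hk⟩ := exists_nat_gt |a 0|
      have hk0 : (0 : ℝ) ≤ k := Nat.cast_nonneg k
      have habs := abs_lt.1 hk
      have hkm : (k : ℝ) * m ≤ 0 := mul_nonpos_of_nonneg_of_nonpos hk0 hmneg.le
      have h1 : (0 : ℝ) ∈ range fun x => a x - x := by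
        refine mem_range_of_exists_le_of_exists_ge (hac.sub continuous_id) ⟨k, ?_⟩ ⟨-k, ?_⟩
        · show a k - k ≤ 0
          rw [hmn]
          linarith [habs.2]
        · show 0 ≤ a (-k) - -k
          rw [hmn']
          linarith [habs.1]
      obtain ⟨x, hx⟩ := h1
      exact ⟨x, by linarith [hx]⟩
    obtain ⟨x₀, hx₀⟩ := hfix
    have hAx : A (fun _ => x₀) = fun _ => x₀ := by
      rw [fin1 (A fun _ => x₀)]
      funext _
      exact hx₀
    have ht0 : tra A 0 = A := by
      funext p
      show A p + 0 = A p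
      rw [add_zero]
    have hconv : Conv g := by
      refine circle_conv hr g hgf (hA.comp hA) lAA ?_ ⟨fun _ => x₀, ?_⟩
      · intro N z hN hz v hv
        have e : (A ∘ A)^[N] = A^[2 * N] := by
          rw [Function.iterate_mul]
          rfl
        rw [e] at hz hv
        refine hst 0 (by rw [norm_zero]; exact hδ) (2 * N) z (by omega) ?_ v ?_
        · rw [ht0]; exact hz
        · rw [ht0]; exact hv
      · show IsI (A (A fun _ => x₀) - fun _ => x₀)
        rw [hAx, hAx, sub_self]
        exact isI_zero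
    obtain ⟨h1, h2, h3⟩ := of_conv hconv
    have hPer : Per g = Per f := by
      ext x
      have e : ∀ n, g^[n] x = f^[2 * n] x := fun n => by
        have e1 : (⇑g) = f^[2] := rfl
        rw [e1, ← Function.iterate_mul]
      constructor
      · rintro ⟨n, hn, hx⟩
        exact ⟨2 * n, by omega, by rw [← e]; exact hx⟩
      · rintro ⟨n, hn, hx⟩
        refine ⟨n, hn, ?_⟩
        rw [e, Nat.mul_comm, Function.iterate_mul]
        exact Function.iterate_fixed hx 2
    rw [hPer] at h1 h2 h3
    refine ⟨h1, h2, fun x hx => h3 ?_⟩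
    have h4 : Pool.Agent.Q192.FT.Reach f univ x x := by
      intro ε hε
      obtain ⟨n, c, hn, h0, h1, h2⟩ := hx ε hε
      exact ⟨n, c, hn, h0, h1, fun _ _ => mem_univ _, h2⟩
    have h5 := Pool.Agent.Q192.FT.reach_pow f.continuous 2 h4
    intro ε hε
    obtain ⟨n, c, hn, h0, h1, -, h2⟩ := h5 ε hε
    exact ⟨n, c, hn, h0, h1, h2⟩

end Q263.IC
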