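import Mathlib
import Pool.Agent.Q263.IC.Def2
import Pool.Agent.Q263.IC.Man
import Pool.Agent.Q263.IC.Circ
import Pool.Agent.Q192.FT.Nocyc
import Pool.Agent.Q192.FT.Main
import Pool.Agent.Q263.HS.Fin

/-! Assembly of project IC.  `exists_theta`, `cyc_img`, `piece_iso` follow the proofs of helper192 in
`Pool/Agent/Q192/FT/Main.lean` and `Pool/Agent/Q192/FT/AMain.lean`. -/

set_option autoImplicit false
set_option linter.unusedSectionVars false

open scoped Manifold ContDiff Topology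
open Set Filter Pool.Agent.H718R2.G Pool.Agent.H728R2.OS Pool.Agent.H721R2
open Pool.Agent.Q192.FT (IsI tor_eq_iff emb em pr em_apply pr_em tor_surj' tor_add_int Reach
  reach_cyc iso_of_closed cyc cyc_eq)
open Pool.Agent.Y504.CO (NoBdd HypAt IsHyperbolicPer)

universe u

namespace Q263.IC

section top

variable {n d : ℕ} {N : Type u} [TopologicalSpace N] [T2Space N] [CompactSpace N]
  [ChartedSpace (V n) N] [IsManifold (𝓡 n) ∞ N] {r : ℕ∞} {E : V n → N}

/-- the embedding of the torus -/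
theorem exists_theta (hd : d ≤ n) (hE : Tube n d r E) :
    ∃ θ : Torus d → N, Continuous θ ∧ Function.Injective θ ∧
      ∀ x, θ (toTorus x) = E (emb n d x) := by
  choose ρ hρ using fun t : Torus d => tor_surj' t
  have h1 : ∀ x, E (emb n d (ρ (toTorus x))) = E (emb n d x) := by
    intro x
    have h2 := (tor_eq_iff _ _).1 (hρ (toTorus x))
    exact (hE.core_int hd h2).symm
  refine ⟨fun t => E (emb n d (ρ t)), ?_, ?_, h1⟩
  · rw [(isCov_toTorus d).quot.isQuotientMap.continuous_iff]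
    have e : (fun t => E (emb n d (ρ t))) ∘ toTorus = fun x => E (em n d x) := by
      funext x
      exact h1 x
    rw [e]
    exact hE.smooth.continuous.comp (em n d).continuous
  · intro s t hst
    have h := (hE.inj _ _).1 hst
    rw [← Pool.Agent.Q192.FT.pr_int_iff hd, ← Pool.Agent.Q192.FT.qq_eq_iff] at h
    have h3 := h.1
    rw [← em_apply, ← em_apply, pr_em, pr_em] at h3
    rw [← hρ s, ← hρ t]
    exact (tor_eq_iff _ _).2 h3

variable {m : ℕ} {f : Torus d ≃ₜ Torus d}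

theorem cyc_img {F : N → N} (H : TorusCycle n r F d m E f) :
    F '' cyc n F d m E = cyc n F d m E := by
  apply subset_antisymm
  · rintro _ ⟨_, ⟨i, hi, x, rfl⟩, rfl⟩
    rcases Nat.lt_or_ge (i + 1) m with h1 | h1
    · exact ⟨i + 1, h1, x, (Function.iterate_succ_apply' _ _ _).symm⟩
    · obtain ⟨y, hy⟩ := tor_surj' (f (toTorus x))
      refine ⟨0, H.pos, y, ?_⟩
      have e : i + 1 = m := by omega
      rw [← Function.iterate_succ_apply' F]
      show F^[i + 1] _ = _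
      rw [e]
      exact H.dyn x y hy
  · rintro _ ⟨i, hi, x, rfl⟩
    rcases Nat.eq_zero_or_pos i with rfl | hi0
    · obtain ⟨x'', hx''⟩ := tor_surj' (f.symm (toTorus x))
      have h1 := H.dyn x'' x (by rw [hx'', f.apply_symm_apply])
      obtain ⟨m', rfl⟩ : ∃ m', m = m' + 1 := ⟨m - 1, by have := H.pos; omega⟩
      refine ⟨F^[m'] (E (emb n d x'')), ⟨m', by omega, x'', rfl⟩, ?_⟩
      rw [← Function.iterate_succ_apply' F]
      exact h1
    · obtain ⟨i', rfl⟩ : ∃ i', i = i' + 1 := ⟨i - 1, by omega⟩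
      exact ⟨F^[i'] (E (emb n d x)), ⟨i', by omega, x, rfl⟩,
        (Function.iterate_succ_apply' _ _ _).symm⟩

/-- the conjugacy on the core -/
theorem theta_dyn {F : N → N} (H : TorusCycle n r F d m E f) {θ : Torus d → N}
    (hθE : ∀ x, θ (toTorus x) = E (emb n d x)) (t : Torus d) : F^[m] (θ t) = θ (f t) := by
  obtain ⟨x, rfl⟩ := tor_surj' t
  obtain ⟨y, hy⟩ := tor_surj' (f (toTorus x))
  rw [hθE, ← hy, hθE]
  exact H.dyn x y hy

theorem theta_dis {F : N → N} (H : TorusCycle n r F d m E f) {θ : Torus d → N}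
    (hθE : ∀ x, θ (toTorus x) = E (emb n d x)) (i : ℕ) (h0 : 0 < i) (hi : i < m)
    (s t : Torus d) : F^[i] (θ s) ≠ θ t := by
  obtain ⟨x, rfl⟩ := tor_surj' s
  obtain ⟨y, rfl⟩ := tor_surj' t
  rw [hθE, hθE]
  exact H.dis i h0 hi x y

/-- the periodic points on the cycle -/
theorem per_cyc {F : DiffM n N r} (H : TorusCycle n r F d m E f) {θ : Torus d → N}
    (hinj : Function.Injective θ) (hθE : ∀ x, θ (toTorus x) = E (emb n d x)) (i : ℕ)
    (t : Torus d) : F^[i] (θ t) ∈ Per F.toHomeomorph ↔ t ∈ Per f := by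
  have h2 : ∀ j, (F^[m])^[j] (θ t) = θ (f^[j] t) := by
    intro j
    induction j with
    | zero => rfl
    | succ j ih =>
      rw [Function.iterate_succ_apply', ih, theta_dyn H hθE, Function.iterate_succ_apply']
  constructor
  · rintro ⟨k, hk, h⟩
    have hinjF : Function.Injective (F : N → N) := F.injective
    have h1 : F^[k] (θ t) = θ t := by
      apply hinjF.iterate i
      rw [← Function.iterate_add_apply, add_comm, Function.iterate_add_apply]
      exact h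
    have h3 : (F^[m])^[k] (θ t) = θ t := by
      rw [← Function.iterate_mul, mul_comm, Function.iterate_mul]
      exact Function.iterate_fixed h1 m
    rw [h2] at h3
    exact ⟨k, hk, hinj h3⟩
  · rintro ⟨k, hk, h⟩
    refine ⟨m * k, Nat.mul_pos H.pos hk, ?_⟩
    show F^[m * k] (F^[i] (θ t)) = F^[i] (θ t)
    rw [← Function.iterate_add_apply, add_comm, Function.iterate_add_apply, Function.iterate_mul,
      h2, h]

theorem cyc_closed {F : N → N} (hF : Continuous F) (H : TorusCycle n r F d m E f) :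
    IsClosed (cyc n F d m E) := by
  obtain ⟨θ, hθ, -, hθE⟩ := exists_theta H.le H.toTube
  rw [cyc_eq hθE]
  exact isClosed_iUnion_of_finite fun i => Pool.Agent.Q192.FT.piece_closed hF hθ _

end top

section iso

variable {N : Type u} [MetricSpace N] [CompactSpace N]

/-- the pieces are isolated -/
theorem piece_iso {G : N ≃ₜ N} {p : ℕ} {d m : Fin p → ℕ}
    (θ : ∀ j, Torus (d j) → N) (hθ : ∀ j, Continuous (θ j))
    (hdis : ∀ j j', j ≠ j' → ∀ i < m j, ∀ i' < m j', ∀ t t', G^[i] (θ j t) ≠ G^[i'] (θ j' t'))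
    (hdis' : ∀ j, ∀ i, 0 < i → i < m j → ∀ t t', G^[i] (θ j t) ≠ θ j t')
    {Z : Set N} (hZ : IsClosed Z) (hZd : ∀ j, ∀ i < m j, ∀ t, G^[i] (θ j t) ∉ Z) {C : Set N}
    (hC : ∀ x ∈ C, x ∈ Z ∨ ∃ j, ∃ i < m j, ∃ t, x = G^[i] (θ j t)) (j : Fin p) {i : ℕ}
    (hi : i < m j) : ∃ ρ : ℝ, 0 < ρ ∧ ∀ a ∈ (fun t => G^[i] (θ j t)) '' univ, ∀ c ∈ C,
      dist a c < ρ → c ∈ (fun t => G^[i] (θ j t)) '' univ := by
  have hcont : ∀ (j : Fin p) (i : ℕ), Continuous fun t => G^[i] (θ j t) := fun j i =>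
    (G.continuous.iterate i).comp (hθ j)
  set B : Set N := Z ∪ ⋃ s : (Σ j : Fin p, Fin (m j)), ⋃ _ : s ≠ ⟨j, ⟨i, hi⟩⟩,
    (fun t => G^[(s.2 : ℕ)] (θ s.1 t)) '' univ with hB
  have hBcl : IsClosed B := by
    refine hZ.union (isClosed_iUnion_of_finite fun s => isClosed_iUnion_of_finite
      fun _ => ?_)
    exact (isCompact_univ.image (hcont s.1 s.2)).isClosed
  refine iso_of_closed (isCompact_univ.image (hcont j i)) hBcl ?_ fun x hx => ?_
  · rw [Set.disjoint_left]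
    rintro _ ⟨t, -, rfl⟩ (h | h)
    · exact hZd j i hi t h
    · obtain ⟨⟨j', i'⟩, h⟩ := mem_iUnion.1 h
      obtain ⟨hne, h⟩ := mem_iUnion.1 h
      obtain ⟨t', -, ht'⟩ := h
      have ht : G^[(i' : ℕ)] (θ j' t') = G^[i] (θ j t) := ht'
      by_cases hj : j' = j
      · subst hj
        have hii : (i' : ℕ) ≠ i := fun hh => hne (by
          have : i' = ⟨i, hi⟩ := Fin.ext hh
          rw [this])
        rcases lt_or_gt_of_ne hii with h1 | h1
        · obtain ⟨e, he⟩ := Nat.exists_eq_add_of_lt h1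
          rw [he, add_assoc, Function.iterate_add_apply] at ht
          exact hdis' j' (e + 1) (by omega) (by omega) t t' ((G.injective.iterate _) ht).symm
        · obtain ⟨e, he⟩ := Nat.exists_eq_add_of_lt h1
          have hlt := i'.2
          rw [he, add_assoc, Function.iterate_add_apply] at ht
          exact hdis' j' (e + 1) (by omega) (by omega) t' t ((G.injective.iterate _) ht)
      · exact hdis j' j hj i' i'.2 i hi t' t ht
  · rcases hC x hx with h | ⟨j', i', hi', t, rfl⟩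
    · exact Or.inr (Or.inl h)
    · by_cases hs : (⟨j', ⟨i', hi'⟩⟩ : Σ j : Fin p, Fin (m j)) = ⟨j, ⟨i, hi⟩⟩
      · left
        obtain ⟨hj, hi2⟩ := Sigma.mk.inj_iff.1 hs
        subst hj
        have hi3 : i' = i := congrArg Fin.val (eq_of_heq hi2)
        subst hi3
        exact ⟨t, mem_univ _, rfl⟩
      · right
        right
        exact mem_iUnion.2 ⟨⟨j', ⟨i', hi'⟩⟩, mem_iUnion.2 ⟨hs, t, mem_univ _, rfl⟩⟩

theorem reach_of_chainRec {G : N ≃ₜ N} {x : N} (hx : x ∈ ChainRec G) :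
    Reach G (ChainRec G) x x := by
  have h1 := Q263.HS.crr N G G.continuous x (Q263.HS.chainRec_of_metric hx)
  intro ε hε
  obtain ⟨k, c, hk, h0, h3, h5, h4⟩ := h1 {p | dist p.1 p.2 < ε}
    (isOpen_lt (continuous_fst.dist continuous_snd) continuous_const)
    (fun x => by rw [Set.mem_ofPred_eq, dist_self]; exact hε)
  exact ⟨k, c, hk, h0, h3, fun i _ => Q263.HS.metric_of_chainRec (h5 i), h4⟩

theorem reach_mono {G : N → N} {A B : Set N} (h : A ⊆ B) {x y : N} (hx : Reach G A x y) :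
    Reach G B x y := by
  intro ε hε
  obtain ⟨k, c, hk, h0, h3, h5, h4⟩ := hx ε hε
  exact ⟨k, c, hk, h0, h3, fun i hi => h (h5 i hi), h4⟩

end iso

section final

variable {n : ℕ} {N : Type u} [MetricSpace N] [CompactSpace N]
  [ChartedSpace (V n) N] [IsManifold (𝓡 n) ∞ N] {r : ℕ∞}

/-- chain recurrent points relative to a set in which the cycles are isolated -/
theorem per_of_reach {F : DiffM n N r} {p : ℕ} (d m : Fin p → ℕ)
    (E : Fin p → V n → N) (f : ∀ j, Torus (d j) ≃ₜ Torus (d j))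
    (H : ∀ j, TorusCycle n r F (d j) (m j) (E j) (f j))
    (hch : ∀ j, ChainRec (f j) ⊆ Per (f j))
    (hdis : ∀ i j, i ≠ j → Disjoint (cyc n F (d i) (m i) (E i)) (cyc n F (d j) (m j) (E j)))
    {Z : Set N} (hZ : IsClosed Z) (hZd : ∀ j, Disjoint Z (cyc n F (d j) (m j) (E j)))
    {C : Set N} (hC : C ⊆ Z ∪ ⋃ j, cyc n F (d j) (m j) (E j)) {x : N} (hx : Reach F C x x)
    {j : Fin p} (hxj : x ∈ cyc n F (d j) (m j) (E j)) : x ∈ Per F.toHomeomorph := by
  choose θ hθ hθi hθE using fun j => exists_theta (H j).le (H j).toTube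
  have hcycθ : ∀ j, cyc n F (d j) (m j) (E j) =
      ⋃ i : Fin (m j), (fun t => F^[(i : ℕ)] (θ j t)) '' univ := fun j => cyc_eq (hθE j)
  have hmem : ∀ j, ∀ i < m j, ∀ t, F^[i] (θ j t) ∈ cyc n F (d j) (m j) (E j) := by
    intro j i hi t
    rw [hcycθ j]
    exact mem_iUnion.2 ⟨⟨i, hi⟩, t, mem_univ _, rfl⟩
  have hcases : ∀ j, ∀ y ∈ cyc n F (d j) (m j) (E j), ∃ i < m j, ∃ t, y = F^[i] (θ j t) := by
    intro j y hy
    rw [hcycθ j] at hy
    obtain ⟨i, t, -, rfl⟩ := mem_iUnion.1 hy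
    exact ⟨i, i.2, t, rfl⟩
  obtain ⟨i, hi, t, rfl⟩ := hcases j x hxj
  obtain ⟨ρ, hρ, hρ'⟩ := piece_iso (G := F.toHomeomorph) (d := d) (m := m) θ hθ
    (fun j₁ j₂ hj i₁ hi₁ i₂ hi₂ t t' heq => by
      refine Set.disjoint_left.1 (hdis j₁ j₂ hj) (hmem j₁ i₁ hi₁ t) ?_
      have h1 : F^[i₁] (θ j₁ t) = F^[i₂] (θ j₂ t') := heq
      rw [h1]
      exact hmem j₂ i₂ hi₂ t')
    (fun j₁ i₁ h0 hi₁ t t' => theta_dis (H j₁) (hθE j₁) i₁ h0 hi₁ t t') hZ
    (fun j₁ i₁ hi₁ t ht => Set.disjoint_left.1 (hZd j₁) ht (hmem j₁ i₁ hi₁ t))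
    (C := C) (fun y hy => by
      rcases hC hy with h | h
      · exact Or.inl h
      · obtain ⟨j', hj'⟩ := mem_iUnion.1 h
        exact Or.inr ⟨j', hcases j' y hj'⟩) j hi
  have h1 : t ∈ ChainRec (f j) := reach_cyc F.toHomeomorph (hθ j) (hθi j) (f j)
    (theta_dyn (H j) (hθE j)) hρ hρ' hx
  exact (per_cyc (H j) (hθi j) (hθE j) i t).2 (hch j h1)

/-- **The dynamics on a cycle of invariant tori.** -/
theorem morseOn (hACT : S_ACT.{u}) (hr : 1 ≤ r) {F : DiffM n N r}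
    (hF : Pool.Agent.TH80.OMS.OmegaStable n N r F) {d m : ℕ} {E : V n → N}
    {f : Torus d ≃ₜ Torus d} (H : TorusCycle n r F d m E f) (hf : Adm r f) :
    MorseOn n F (cyc n F d m E) := by
  obtain ⟨h1, h2, h3⟩ := morse_of_star hr hf (star_of_stable hACT hr hF H hf.1)
  obtain ⟨θ, hθ, hθi, hθE⟩ := exists_theta H.le H.toTube
  have hcycθ : cyc n F d m E = ⋃ i : Fin m, (fun t => F^[(i : ℕ)] (θ t)) '' univ := cyc_eq hθE
  refine ⟨?_, ?_, fun p hp => ?_, fun x hx hR => ?_⟩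
  · have hsub : cyc n F d m E ∩ Per F.toHomeomorph ⊆
        ⋃ i : Fin m, (fun t => F^[(i : ℕ)] (θ t)) '' Per f := by
      rintro y ⟨hy, hp⟩
      rw [hcycθ] at hy
      obtain ⟨i, t, -, rfl⟩ := mem_iUnion.1 hy
      exact mem_iUnion.2 ⟨i, t, (per_cyc H hθi hθE i t).1 hp, rfl⟩
    exact (Set.finite_iUnion fun i => h1.image _).subset hsub
  · obtain ⟨t, ht⟩ := h2
    refine ⟨θ t, ?_, (per_cyc H hθi hθE 0 t).2 ht⟩
    rw [hcycθ]
    exact mem_iUnion.2 ⟨⟨0, H.pos⟩, t, mem_univ _, rfl⟩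
  · obtain ⟨U, hU, hFU, -, hhyp⟩ :=
      Pool.Agent.Y504.CO.stable_hyp Pool.Agent.Y504.CO.Plug.hF2 hr hF
    have hper : p ∈ Pool.Agent.TH80.OMS.Per F := hp.2
    exact Pool.Agent.Y504.CO.Plug.hyp_charpoly hr F hper (hhyp F hFU p hper)
  · refine per_of_reach (p := 1) (fun _ => d) (fun _ => m) (fun _ => E) (fun _ => f)
      (fun _ => H) (fun _ => h3) (fun i j hij => absurd (Subsingleton.elim i j) hij)
      (Z := ∅) isClosed_empty (fun _ => by simp) (C := cyc n F d m E) ?_ hR (j := 0) hx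
    intro y hy
    exact Or.inr (mem_iUnion.2 ⟨0, hy⟩)

/-- the union of a hyperbolic set with a disjoint finite set of hyperbolic periodic points -/
theorem hyp_union (hHF : S_HYPFIN.{u}) (hr : 1 ≤ r) (F : DiffM n N r) {Λ : Set N}
    (h : Q263.HS.IsHyp (V n) F.toHomeomorph Λ) {P : Set N} (hP : P.Finite)
    (hFP : F '' P = P) (hPh : ∀ p ∈ P, HypAt n F p) (hd : Disjoint Λ P) :
    Q263.HS.IsHyp (V n) F.toHomeomorph (Λ ∪ P) := by
  classical
  obtain ⟨Nm, Es, Eu, C, a, h⟩ := h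
  obtain ⟨Es', Eu', C', a', h'⟩ := hHF n N r hr F Nm h.norm P hP hFP hPh
  have hnP : ∀ x ∈ Λ, x ∉ P := fun x hx hxP => Set.disjoint_left.1 hd hx hxP
  set Fs : ∀ x : N, Submodule ℝ (TangentSpace 𝓘(ℝ, V n) x) :=
    fun x => if x ∈ P then Es' x else Es x with hFs
  set Fu : ∀ x : N, Submodule ℝ (TangentSpace 𝓘(ℝ, V n) x) :=
    fun x => if x ∈ P then Eu' x else Eu x with hFu
  have s1 : ∀ x ∈ P, Fs x = Es' x := fun x hx => if_pos hx
  have s2 : ∀ x ∈ Λ, Fs x = Es x := fun x hx => if_neg (hnP x hx)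
  have u1 : ∀ x ∈ P, Fu x = Eu' x := fun x hx => if_pos hx
  have u2 : ∀ x ∈ Λ, Fu x = Eu x := fun x hx => if_neg (hnP x hx)
  have hFΛ : ∀ x ∈ Λ, F x ∈ Λ := fun x hx => by
    have h1 := h.inv
    rw [← h1]
    exact mem_image_of_mem _ hx
  have hFP' : ∀ x ∈ P, F x ∈ P := fun x hx => by
    rw [← hFP]
    exact mem_image_of_mem _ hx
  have hFΛs : ∀ x ∈ Λ, F.symm x ∈ Λ := fun x hx => by
    have h1 := h.inv
    rw [← h1] at hx
    obtain ⟨y, hy, hyx⟩ := hx
    have h2 : F y = x := hyx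
    rw [← h2, F.symm_apply_apply]
    exact hy
  have hFPs : ∀ x ∈ P, F.symm x ∈ P := fun x hx => by
    rw [← hFP] at hx
    obtain ⟨y, hy, hyx⟩ := hx
    rw [← hyx, F.symm_apply_apply]
    exact hy
  have hNn : ∀ v, 0 ≤ Nm v := by
    rintro ⟨x, v⟩
    by_cases hv : v = 0
    · have h1 := h.norm.smul x 0 v
      rw [zero_smul, abs_zero, zero_mul] at h1
      rw [hv]
      exact h1.ge
    · exact (h.norm.pos x v hv).le
  set C₁ : ℝ := max |C| |C'| with hC₁
  set a₁ : ℝ := max a a' with ha₁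
  have hbd : ∀ (c b : ℝ), |c| ≤ C₁ → 0 < b → b ≤ a₁ → ∀ (k : ℕ) (v : TangentBundle 𝓘(ℝ, V n) N),
      c * b ^ k * Nm v ≤ C₁ * a₁ ^ k * Nm v := by
    intro c b hc hb hb' k v
    refine mul_le_mul_of_nonneg_right ?_ (hNn v)
    have h1 : c ≤ C₁ := (le_abs_self c).trans hc
    have h2 : b ^ k ≤ a₁ ^ k := pow_le_pow_left₀ hb.le hb' k
    have h3 : 0 ≤ C₁ := (abs_nonneg c).trans hc
    calc c * b ^ k ≤ C₁ * b ^ k := mul_le_mul_of_nonneg_right h1 (pow_nonneg hb.le k)
      _ ≤ C₁ * a₁ ^ k := mul_le_mul_of_nonneg_left h2 h3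
  refine ⟨Nm, Fs, Fu, C₁, a₁, {
    norm := h.norm
    closed := h.closed.union h'.closed
    inv := by
      rw [image_union, h.inv, h'.inv]
    a_pos := lt_max_of_lt_left h.a_pos
    a_lt := max_lt h.a_lt h'.a_lt
    compl := ?_
    cont_s := ?_
    cont_u := ?_
    map_s := ?_
    map_u := ?_
    rate_s := ?_
    rate_u := ?_ }⟩
  · rintro x (hx | hx)
    · have h1 := h.map_s x hx
      rw [s2 x hx]
      show _ = Fs (F x)
      rw [s2 _ (hFΛ x hx)]
      exact h1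
    · have h1 := h'.map_s x hx
      rw [s1 x hx]
      show _ = Fs (F x)
      rw [s1 _ (hFP' x hx)]
      exact h1
  · rintro x (hx | hx)
    · have h1 := h.map_u x hx
      rw [u2 x hx]
      show _ = Fu (F x)
      rw [u2 _ (hFΛ x hx)]
      exact h1
    · have h1 := h'.map_u x hx
      rw [u1 x hx]
      show _ = Fu (F x)
      rw [u1 _ (hFP' x hx)]
      exact h1
  · rintro k x (hx | hx) v hv
    · rw [s2 x hx] at hv
      exact (h.rate_s k x hx v hv).trans (hbd C a (le_max_left _ _) h.a_pos (le_max_left _ _) k _)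
    · rw [s1 x hx] at hv
      exact (h'.rate_s k x hx v hv).trans
        (hbd C' a' (le_max_right _ _) h'.a_pos (le_max_right _ _) k _)
  · rintro k x (hx | hx) v hv
    · rw [u2 x hx] at hv
      exact (h.rate_u k x hx v hv).trans (hbd C a (le_max_left _ _) h.a_pos (le_max_left _ _) k _)
    · rw [u1 x hx] at hv
      exact (h'.rate_u k x hx v hv).trans
        (hbd C' a' (le_max_right _ _) h'.a_pos (le_max_right _ _) k _)
  · rintro x (hx | hx)
    · rw [s2 x hx, u2 x hx]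
      exact h.compl x hx
    · rw [s1 x hx, u1 x hx]
      exact h'.compl x hx
  · have e : {p : TangentBundle 𝓘(ℝ, V n) N | p.1 ∈ Λ ∪ P ∧ p.2 ∈ Fs p.1} =
        {p : TangentBundle 𝓘(ℝ, V n) N | p.1 ∈ Λ ∧ p.2 ∈ Es p.1} ∪
        {p : TangentBundle 𝓘(ℝ, V n) N | p.1 ∈ P ∧ p.2 ∈ Es' p.1} := by
      ext q
      constructor
      · rintro ⟨hq | hq, h2⟩
        · rw [s2 _ hq] at h2
          exact Or.inl ⟨hq, h2⟩
        · rw [s1 _ hq] at h2
          exact Or.inr ⟨hq, h2⟩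
      · rintro (⟨hq, h2⟩ | ⟨hq, h2⟩)
        · refine ⟨Or.inl hq, ?_⟩
          rw [s2 _ hq]
          exact h2
        · refine ⟨Or.inr hq, ?_⟩
          rw [s1 _ hq]
          exact h2
    unfold Q263.HS.ContOn
    rw [e]
    exact h.cont_s.union h'.cont_s
  · have e : {p : TangentBundle 𝓘(ℝ, V n) N | p.1 ∈ Λ ∪ P ∧ p.2 ∈ Fu p.1} =
        {p : TangentBundle 𝓘(ℝ, V n) N | p.1 ∈ Λ ∧ p.2 ∈ Eu p.1} ∪
        {p : TangentBundle 𝓘(ℝ, V n) N | p.1 ∈ P ∧ p.2 ∈ Eu' p.1} := by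
      ext q
      constructor
      · rintro ⟨hq | hq, h2⟩
        · rw [u2 _ hq] at h2
          exact Or.inl ⟨hq, h2⟩
        · rw [u1 _ hq] at h2
          exact Or.inr ⟨hq, h2⟩
      · rintro (⟨hq, h2⟩ | ⟨hq, h2⟩)
        · refine ⟨Or.inl hq, ?_⟩
          rw [u2 _ hq]
          exact h2
        · refine ⟨Or.inr hq, ?_⟩
          rw [u1 _ hq]
          exact h2
    unfold Q263.HS.ContOn
    rw [e]
    exact h.cont_u.union h'.cont_u

/-- **Axiom A from a cover of the chain recurrent set.** -/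
theorem axiomA_of_tori (hACT : S_ACT.{u}) (hHF : S_HYPFIN.{u}) (hr : 1 ≤ r) {F : DiffM n N r}
    (hF : Pool.Agent.TH80.OMS.OmegaStable n N r F) (h : ToriCovered n r F) :
    Q263.HS.AxiomA (V n) F.toHomeomorph ∧ NoCycle F.toHomeomorph ∧
    ChainRec F.toHomeomorph = Omega F.toHomeomorph := by
  obtain ⟨Λ₀, S, p, d, m, E, f, h₀, hS, hT, hdis, hdis₀, hCR⟩ := h
  obtain ⟨U, hU, hFU, hcen⟩ := Q263.HS.stable_no_centre hr hF
  have hCR' : ChainRec F.toHomeomorph ⊆ Λ₀ ∪ ⋃ j, cyc n F (d j) (m j) (E j) := by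
    intro x hx
    rcases hCR hx with (h2 | ⟨Λ, hΛ, hxΛ⟩) | h2
    · exact Or.inl h2
    · rw [hcen F hFU Λ (hS Λ hΛ)] at hxΛ
      exact hxΛ.elim
    · exact Or.inr h2
  have hM : ∀ j, MorseOn n F (cyc n F (d j) (m j) (E j)) := fun j =>
    morseOn hACT hr hF (hT j).1 (hT j).2
  have hch : ∀ j, ChainRec (f j) ⊆ Per (f j) := fun j =>
    (morse_of_star hr (hT j).2 (star_of_stable hACT hr hF (hT j).1 (hT j).2.1)).2.2
  have hclosed : IsClosed Λ₀ := by
    obtain ⟨Nm, Es, Eu, C, a, h1⟩ := h₀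
    exact h1.closed
  set P : Set N := ⋃ j, (cyc n F (d j) (m j) (E j) ∩ Per F.toHomeomorph) with hP
  have hPf : P.Finite := Set.finite_iUnion fun j => (hM j).finite
  have hsub : ChainRec F.toHomeomorph ⊆ Λ₀ ∪ P := by
    intro x hx
    rcases hCR' hx with h1 | h1
    · exact Or.inl h1
    · obtain ⟨j, hj⟩ := mem_iUnion.1 h1
      refine Or.inr (mem_iUnion.2 ⟨j, hj, ?_⟩)
      exact per_of_reach d m E f (fun j => (hT j).1) hch hdis hclosed hdis₀ hCR'
        (reach_of_chainRec hx) hj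
  have hperF : F '' Per F.toHomeomorph = Per F.toHomeomorph := by
    apply Subset.antisymm
    · rintro _ ⟨x, ⟨k, hk, hx⟩, rfl⟩
      refine ⟨k, hk, ?_⟩
      have hx' : F^[k] x = x := hx
      show F^[k] (F x) = F x
      rw [← Function.iterate_succ_apply, Function.iterate_succ_apply', hx']
    · rintro x ⟨k, hk, hx⟩
      have hx' : F^[k] x = x := hx
      refine ⟨F^[k - 1] x, ⟨k, hk, ?_⟩, ?_⟩
      · show F^[k] (F^[k - 1] x) = F^[k - 1] x
        rw [← Function.iterate_add_apply, add_comm, Function.iterate_add_apply, hx']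
      · have h3 : F (F^[k - 1] x) = F^[k - 1 + 1] x :=
          (Function.iterate_succ_apply' F (k - 1) x).symm
        rw [h3, Nat.sub_add_cancel hk, hx']
  have hFP : F '' P = P := by
    rw [hP, image_iUnion]
    refine iUnion_congr fun j => ?_
    rw [image_inter (show Function.Injective (F : N → N) from F.injective), cyc_img (hT j).1,
      hperF]
  obtain ⟨U', hU', hFU', -, hhyp⟩ :=
    Pool.Agent.Y504.CO.stable_hyp Pool.Agent.Y504.CO.Plug.hF2 hr hF
  have hPh : ∀ p ∈ P, HypAt n F p := by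
    intro q hq
    obtain ⟨j, hj⟩ := mem_iUnion.1 hq
    exact hhyp F hFU' q hj.2
  have hdP : Disjoint Λ₀ P := by
    rw [Set.disjoint_left]
    intro x hx hxP
    obtain ⟨j, hj⟩ := mem_iUnion.1 hxP
    exact Set.disjoint_left.1 (hdis₀ j) hx hj.1
  exact Q263.HS.chain_hyp Q263.HR.tr Pool.Agent.Q223.HS.fl Q263.HS.ang Pool.Agent.Q223.HS.cont
    Q263.HS.low Q263.HR.chain Q263.HS.crr F.toHomeomorph
    (F.contMDiff.of_le (by exact_mod_cast hr)) (F.symm.contMDiff.of_le (by exact_mod_cast hr))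
    (hyp_union hHF hr F h₀ hPf hFP hPh hdP) hsub

end final

end Q263.IC
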